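import Pool.Agent.Lib_helper58.OM.F

/-! # Orbifold maps of surfaces to projective spaces (MP_45e720_ag): Brody curves -/

set_option autoImplicit false
set_option linter.unusedVariables false
set_option linter.unusedSectionVars false

open Filter Topology Metric Set
open scoped Manifold ContDiff

namespace Pool.Agent.OM

open Pool.Agent.BR Pool.Agent.MBS Pool.Agent.SL Pool.Agent.IS Pool.Agent.KZ
open Pool.Agent.OrbifoldMaps

section top

variable {E X : Type} [NormedAddCommGroup E] [NormedSpace ℂ E] [FiniteDimensional ℂ E]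
  [TopologicalSpace X] [ChartedSpace E X] [IsManifold 𝓘(ℂ, E) ω X] {n q : ℕ}

theorem lin_rep (b : Fin (n + 1) → ℂ) {v : Fin (n + 1) → ℂ} (hv : v ≠ 0) :
    linForm b (Projectivization.mk ℂ v hv).rep = 0 ↔ linForm b v = 0 := by
  obtain ⟨c, hc⟩ := Projectivization.exists_smul_eq_mk_rep ℂ v hv
  rw [← hc]
  have h1 : linForm b (c • v) = (c : ℂ) * linForm b v := lin_smul b v c
  rw [h1]
  constructor
  · intro h
    exact (mul_eq_zero.1 h).resolve_left c.ne_zero
  · intro h
    rw [h, mul_zero]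

/-- inverse images of hyperplanes are analytic subsets -/
theorem plane_analytic {φ : X → Projectivization ℂ (Fin (n + 1) → ℂ)} (hφ : IsHolomorphic E φ)
    (b : Fin (n + 1) → ℂ) : IsAnalyticSubset E {x | linForm b (φ x).rep = 0} := by
  intro x
  obtain ⟨g, hg⟩ := hφ x
  refine ⟨{y | MDifferentiableAt 𝓘(ℂ, E) 𝓘(ℂ, Fin (n + 1) → ℂ) g y ∧
    ∃ h : g y ≠ 0, φ y = Projectivization.mk ℂ (g y) h}, hg.1.and hg.2,
    {fun y => linForm b (g y)}, ?_, ?_⟩
  · rintro f rfl y ⟨hy, -⟩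
    exact (lin_diff b (g y)).mdifferentiableAt.comp y hy
  · rintro y ⟨-, h1, h2⟩
    constructor
    · rintro h3 f rfl
      have h4 : linForm b (φ y).rep = 0 := h3
      rw [h2] at h4
      exact (lin_rep b h1).1 h4
    · intro h3
      show linForm b (φ y).rep = 0
      rw [h2]
      exact (lin_rep b h1).2 (h3 _ rfl)

end top

section metric

variable {E X : Type} [NormedAddCommGroup E] [NormedSpace ℂ E] [FiniteDimensional ℂ E]
  [MetricSpace X] [ChartedSpace E X] [IsManifold 𝓘(ℂ, E) ω X] {n q : ℕ}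

/-- the uniform estimate along a uniformly continuous curve -/
theorem est_unif [CompactSpace X] {A : Cha E X} (hA : ∀ i, ∃ y, A.ch i = chartAt E y)
    {φ : X → Projectivization ℂ (Fin (n + 1) → ℂ)} (hφ : IsHolomorphic E φ)
    (hn : 0 < n) {a : Fin q → Fin (n + 1) → ℂ}
    (ha : ∀ s : Fin (n + 1) → Fin q, Function.Injective s → LinearIndependent ℂ fun k => a (s k))
    (hq : n + 1 ≤ q) {m : Fin q → ℕ} (hm : ∀ i, 0 < m i)
    (hF : ∀ i, HyperplaneMultiplicity E φ (a i) (m i)) {N : ℕ} {e k : Fin q → ℕ}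
    (hE : Expo n m N e k) {h : ℂ → X} (hh : MDifferentiable 𝓘(ℂ, ℂ) 𝓘(ℂ, E) h)
    (hu : ∀ ε > 0, ∃ δ > 0, ∀ z z' : ℂ, ‖z - z'‖ < δ → dist (h z) (h z') < ε) :
    ∃ C : ℝ, 0 ≤ C ∧ ∀ z i, h z ∈ A.W i →
      ∀ G, CL (fun w => φ (h w)) G z → ‖qq a N e G z‖ ≤ C * ‖deriv (A.loc i h) z‖ ^ N := by
  have key : ∀ i, ∃ C : ℝ, 0 ≤ C ∧ ∀ x ∈ closure (A.W i), ∀ z : ℂ, h z = x →
      ∀ G, CL (fun w => φ (h w)) G z → ‖qq a N e G z‖ ≤ C * ‖deriv (A.loc i h) z‖ ^ N := by
    intro i
    obtain ⟨y, hy⟩ := hA i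
    have hcomp : IsCompact (closure (A.W i)) := isClosed_closure.isCompact
    refine hcomp.induction_on (p := fun S => ∃ C : ℝ, 0 ≤ C ∧ ∀ x ∈ S, ∀ z : ℂ, h z = x →
      ∀ G, CL (fun w => φ (h w)) G z → ‖qq a N e G z‖ ≤ C * ‖deriv (A.loc i h) z‖ ^ N) ?_ ?_ ?_ ?_
    · exact ⟨0, le_rfl, fun x hx => absurd hx (notMem_empty x)⟩
    · rintro s t hst ⟨C, hC, h1⟩
      exact ⟨C, hC, fun x hx => h1 x (hst hx)⟩
    · rintro s t ⟨C, hC, h1⟩ ⟨C', hC', h1'⟩
      refine ⟨C + C', by positivity, fun x hx z hz G hG => ?_⟩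
      rcases hx with hx | hx
      · refine (h1 x hx z hz G hG).trans ?_
        gcongr
        linarith
      · refine (h1' x hx z hz G hG).trans ?_
        gcongr
        linarith
    · intro p hp
      have hps : p ∈ (chartAt E y).source := by
        rw [← hy]
        exact A.W_sub i hp
      obtain ⟨U, hU, hest⟩ := est_point hφ hn ha hq hm hF hE y p hps
      obtain ⟨ε, hε, hεU⟩ := Metric.mem_nhds_iff.1 hU
      obtain ⟨δ, hδ, hd⟩ := hu (ε / 2) (half_pos hε)
      obtain ⟨C, hC, h1⟩ := hest δ hδ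
      refine ⟨_, mem_nhdsWithin_of_mem_nhds (inter_mem h1 (ball_mem_nhds p (half_pos hε))), C, hC,
        fun x hx z hz G hG => ?_⟩
      have h2 := hx.1 h z hh hz (by
        intro w hw
        apply hεU
        have h3 : dist (h w) (h z) < ε / 2 := hd w z (by rw [← dist_eq_norm]; exact hw)
        have h4 : dist (h z) p < ε / 2 := by
          rw [hz]
          exact hx.2
        rw [mem_ball]
        calc dist (h w) p ≤ dist (h w) (h z) + dist (h z) p := dist_triangle _ _ _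
          _ < ε := by linarith) G hG
      have h3 : A.loc i h = fun w => chartAt E y (h w) := by
        funext w
        show A.ch i (h w) = _
        rw [hy]
      rw [h3]
      exact h2
  choose C hC hCe using key
  have := A.fin
  obtain ⟨B, hB⟩ := (Set.finite_range C).bddAbove
  refine ⟨max B 0, le_max_right _ _, fun z i hz G hG => ?_⟩
  refine (hCe i (h z) (subset_closure hz) z rfl G hG).trans ?_
  gcongr
  exact (hB ⟨i, rfl⟩).trans (le_max_left _ _)

/-- the dichotomy -/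
theorem dichotomy_metric [CompactSpace X] (hX : BrodyRigid.PlaneAmple E X)
    {φ : X → Projectivization ℂ (Fin (n + 1) → ℂ)} (hφ : IsHolomorphic E φ)
    (hn : 0 < n) {a : Fin q → Fin (n + 1) → ℂ}
    (ha : ∀ s : Fin (n + 1) → Fin q, Function.Injective s → LinearIndependent ℂ fun k => a (s k))
    (hq : n + 1 ≤ q) {m : Fin q → ℕ} (hm : ∀ i, 0 < m i)
    (hF : ∀ i, HyperplaneMultiplicity E φ (a i) (m i)) {N : ℕ} {e k : Fin q → ℕ}
    (hE : Expo n m N e k) {h : ℂ → X} (hh : BrodyRigid.IsBrodyCurve (E := E) h) :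
    BrodyRigid.DoublyPeriodic h ∨
      ∃ b : Fin (n + 1) → ℂ, b ≠ 0 ∧ ∀ᶠ z in 𝓝 (0 : ℂ), linForm b (φ (h z)).rep = 0 := by
  obtain ⟨A, hA⟩ := exists_cha (E := E) (X := X)
  obtain ⟨L, k', hk, ⟨F⟩⟩ := exists_frm A hA (BrodyRigid.planeAmple_iff.1 hX)
  have hhol : ∀ z, A.HolAt h z := (BR.holAt_iff A hA h).1 hh.1
  obtain ⟨C₀, hC₀⟩ := brody_bound A hA h ((BrodyRigid.isBrodyCurve_iff h).1 hh)
  have hu : ∀ ε > 0, ∃ δ > 0, ∀ z z' : ℂ, ‖z - z'‖ < δ → dist (h z) (h z') < ε := by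
    intro ε hε
    obtain ⟨δ, hδ, hd⟩ := equicont A C₀ ε hε
    exact ⟨δ, hδ, hd h hhol hC₀⟩
  obtain ⟨C, hC, hest⟩ := est_unif hA hφ hn ha hq hm hF hE hh.1 hu
  have hlift : ∀ z, ∃ G, CL (fun w => φ (h w)) G z := by
    intro z
    obtain ⟨g, hg⟩ := hφ (h z)
    exact ⟨_, cl_curve hh.1 hg⟩
  have hbd : ∀ z G, CL (fun w => φ (h w)) G z → ‖qq a N e G z‖ ≤ C * (max C₀ 0) ^ N := by
    intro z G hG
    obtain ⟨i, hi⟩ := A.cover (h z)
    refine (hest z i hi G hG).trans ?_
    gcongr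
    exact (hC₀ z i hi).trans (le_max_left _ _)
  obtain ⟨c, hc0, hc⟩ := qq_const a N e hlift hE.sum hbd
  rcases hc0.eq_or_lt with h0 | h0
  · -- the curve is in the inverse image of a hyperplane
    right
    obtain ⟨G, hG⟩ := hlift 0
    obtain ⟨b, hb, hbG⟩ : ∃ b : Fin (n + 1) → ℂ, b ≠ 0 ∧
        ∀ᶠ z in 𝓝 (0 : ℂ), linForm b (G z) = 0 := by
      have hmero : MeromorphicAt (LangFC.wr fun j w => G w j) 0 :=
        LangFC.wr_mero_at _ fun j => (analyticAt_pi_iff.1 hG.1 j).meromorphicAt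
      rcases hmero.eventually_eq_zero_or_eventually_ne_zero with h1 | h1
      · exact plane_of_wr hG.1 h1
      · have h2 : ∀ᶠ z in 𝓝[≠] (0 : ℂ), ∏ i, linForm (a i) (G z) ^ e i = 0 := by
          filter_upwards [h1, hc 0, eventually_nhdsWithin_of_eventually_nhds (cl_near hG)]
            with z b1 b2 b3
          have b4 := b2 G b3
          rw [← h0, norm_eq_zero] at b4
          unfold qq at b4
          rcases div_eq_zero_iff.1 b4 with b5 | b5
          · exact absurd (eq_zero_of_pow_eq_zero b5) b1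
          · exact b5
        obtain ⟨i, -, hi⟩ := zero_of_prod Finset.univ
          (fun i _ => (lin_an (a i) hG.1).pow (e i)) h2
        refine ⟨a i, ?_, ?_⟩
        · -- the coefficients are not all zero
          obtain ⟨s, hs, hsi⟩ : ∃ s : Fin (n + 1) → Fin q, Function.Injective s ∧ i ∈ range s := by
            obtain ⟨u, hu1, -, hu2⟩ := Finset.exists_subsuperset_card_eq
              (Finset.subset_univ ({i} : Finset (Fin q))) (n := n + 1) (by simp)
              (by rwa [Finset.card_univ, Fintype.card_fin])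
            refine ⟨u.orderEmbOfFin hu2, (u.orderEmbOfFin hu2).injective, ?_⟩
            rw [Finset.range_orderEmbOfFin]
            exact hu1 (Finset.mem_singleton_self i)
          obtain ⟨k, rfl⟩ := hsi
          exact (ha s hs).ne_zero k
        · filter_upwards [hi] with z hz
          exact eq_zero_of_pow_eq_zero hz
    refine ⟨b, hb, ?_⟩
    filter_upwards [hbG, hG.2] with z h1 ⟨h2, h3⟩
    rw [h3]
    exact (lin_rep b h2).2 h1
  · -- the curve is uniformly immersed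
    left
    obtain ⟨ε, hε, hεc⟩ : ∃ ε : ℝ, 0 < ε ∧ C * ε ^ N < c := by
      have h1 : Tendsto (fun ε : ℝ => C * ε ^ N) (𝓝[>] 0) (𝓝 (C * 0 ^ N)) := by
        have h2 : Continuous (fun ε : ℝ => C * ε ^ N) := by fun_prop
        exact (h2.tendsto 0).mono_left nhdsWithin_le_nhds
      rw [zero_pow hE.N_pos.ne', mul_zero] at h1
      obtain ⟨ε, h3, h4⟩ := ((h1.eventually_lt_const h0).and self_mem_nhdsWithin).exists
      exact ⟨ε, h4, h3⟩
    have hlow : ∀ z i, h z ∈ A.W i → ε ≤ ‖deriv (A.loc i h) z‖ := by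
      intro z₀ i hi
      by_contra hlt
      push Not at hlt
      have han : AnalyticAt ℂ (A.loc i h) z₀ := (hhol z₀).2 i (A.W_sub i (subset_closure hi))
      have h1 : ∀ᶠ z in 𝓝 z₀, ‖deriv (A.loc i h) z‖ < ε :=
        han.deriv.continuousAt.norm.eventually_lt_const hlt
      have h2 : ∀ᶠ z in 𝓝 z₀, h z ∈ A.W i :=
        (hhol z₀).1.eventually_mem ((A.W_open i).mem_nhds hi)
      obtain ⟨z, b1, b2, b3⟩ := ((hc z₀).and
        (eventually_nhdsWithin_of_eventually_nhds (h1.and h2))).exists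
      obtain ⟨G, hG⟩ := hlift z
      have b4 := hest z i b3 G hG
      rw [b1 G hG] at b4
      have b5 : C * ‖deriv (A.loc i h) z‖ ^ N ≤ C * ε ^ N := by gcongr
      linarith
    exact kk_periodic (A := A) F hk hε (lt_max_of_lt_right one_pos : 0 < max C₀ 1)
      ⟨hhol, fun z i hi => ⟨hlow z i hi, (hC₀ z i hi).trans (le_max_left _ _)⟩⟩

end metric

end Pool.Agent.OM
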