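import Pool.Agent.Lib_helper58.OM.Notions
import Pool.Agent.Lib_helper58.CF.Notions

/-! # Level families (MP_45e720_ag): definitions for the statement -/

set_option autoImplicit false

open Filter Topology Metric Set
open scoped Manifold ContDiff

namespace Pool.Agent.OrbifoldMaps

section

variable (E : Type) {X : Type} [NormedAddCommGroup E] [NormedSpace ℂ E] [TopologicalSpace X]
  [ChartedSpace E X]

/-- `𝒵` is the family of the fibres of a holomorphic map `φ` from `X` to a complex torus `W / Γ`
(more generally `Γ` is a discrete subgroup of the finite-dimensional complex vector space `W`), or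
the family of the inverse images of the hyperplanes under a map to a projective space as in
`IsOrbifoldMap`. -/
def IsLevelFamily (𝒵 : Set (Set X)) : Prop :=
  (∃ (W : Type) (_ : NormedAddCommGroup W) (_ : NormedSpace ℂ W) (_ : FiniteDimensional ℂ W)
    (Γ : Submodule ℤ W) (_ : DiscreteTopology Γ) (φ : X → W ⧸ Γ),
    StrongLang.IsTorusValued E Γ φ ∧ 𝒵 = {Z | ∃ y, Z = {x | φ x = φ y}}) ∨
  ∃ (n q : ℕ) (φ : X → Projectivization ℂ (Fin (n + 1) → ℂ)) (a : Fin q → Fin (n + 1) → ℂ)
    (m : Fin q → ℕ), IsOrbifoldMap E φ a m ∧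
      𝒵 = {Z | ∃ b : Fin (n + 1) → ℂ, b ≠ 0 ∧ Z = {x | linForm b (φ x).rep = 0}}

variable (X)

/-- There are finitely many level families on `X` such that all intersections of members of them
have dimension at most one. -/
def HasCurveLevels : Prop :=
  ∃ (k : ℕ) (𝒵 : Fin k → Set (Set X)), (∀ j, IsLevelFamily E (𝒵 j)) ∧
    ∀ Z : Fin k → Set X, (∀ j, Z j ∈ 𝒵 j) → CurveFibres.IsCurveSet E (⋂ j, Z j)

/-- Some finite unramified covering `X'` of `X` (for instance `X` itself) has such level families.
(A holomorphic map `π : X' → X` with injective derivatives between compact connected manifolds of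
the same dimension is a finite unramified covering.) -/
def VirtuallyCurveLevels [IsManifold 𝓘(ℂ, E) ω X] : Prop :=
  ∃ (X' : Type) (_ : TopologicalSpace X') (_ : CompactSpace X') (_ : T2Space X')
    (_ : ConnectedSpace X') (_ : ChartedSpace E X') (_ : IsManifold 𝓘(ℂ, E) ω X') (π : X' → X),
    MDifferentiable 𝓘(ℂ, E) 𝓘(ℂ, E) π ∧
      (∀ (x' : X') (v : E), (SS.dirDeriv π x' v : E) = 0 → v = 0) ∧ HasCurveLevels E X'

end

end Pool.Agent.OrbifoldMaps
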