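import Pool.Agent.Lib_helper82.KZ.P.PUI

/-! # Analytic curves in the plane are smooth outside a discrete set (MP_45e720_ag) -/

set_option autoImplicit false
set_option linter.unusedVariables false
set_option linter.unusedSectionVars false

open Filter Topology Metric Set

namespace Pool.Agent.OM

open Pool.Agent.KZ

/-- the common zeros of analytic functions, not all zero near the origin, are parametrized by
immersed discs near all points different from the origin -/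
theorem pl_curve {κ : Type} {G : κ → ℂ × ℂ → ℂ} {ρ : ℝ} (hρ : 0 < ρ)
    (hG : ∀ s, ∀ p ∈ ball (0 : ℂ × ℂ) ρ, AnalyticAt ℂ (G s) p) {s₀ : κ}
    (h0 : ¬ ∀ᶠ y in 𝓝 (0 : ℂ), G s₀ (0, y) = 0) :
    ∀ᶠ p in 𝓝[≠] (0 : ℂ × ℂ), (∀ s, G s p = 0) →
      ∃ γ : ℂ → ℂ × ℂ, γ 0 = p ∧ AnalyticAt ℂ γ 0 ∧ deriv γ 0 ≠ 0 ∧
        map γ (𝓝 0) = 𝓝[{p | ∀ s, G s p = 0}] p := by
  classical
  obtain ⟨b, F, hF, hGF⟩ := pu_prep (hG s₀ 0 (mem_ball_self hρ)) h0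
  obtain ⟨q, φ, hq, hφ, hprod⟩ := pu_newton hF
  set β : Fin b → ℂ → ℂ × ℂ := fun i ζ => (ζ ^ q, φ i ζ) with hβ
  -- two branches
  have hQ3 : ∀ i j, ∀ᶠ ζ₀ in 𝓝 (0 : ℂ), ζ₀ ≠ 0 → φ i ζ₀ = φ j ζ₀ →
      ∀ᶠ ζ in 𝓝 ζ₀, φ i ζ = φ j ζ := by
    intro i j
    have h1 : AnalyticAt ℂ (fun ζ => φ i ζ - φ j ζ) 0 := (hφ i).sub (hφ j)
    rcases h1.eventually_eq_zero_or_eventually_ne_zero with h2 | h2
    · filter_upwards [eventually_eventually_nhds.2 h2] with ζ₀ h3 _ _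
      filter_upwards [h3] with ζ h4
      exact sub_eq_zero.1 h4
    · rw [eventually_nhdsWithin_iff] at h2
      filter_upwards [h2] with ζ₀ h3 h4 h5
      exact absurd (sub_eq_zero.2 h5) (h3 h4)
  -- the equations along a branch
  have hQ5 : ∀ i, φ i 0 = 0 → ∀ᶠ ζ₀ in 𝓝 (0 : ℂ), ζ₀ ≠ 0 → (∀ s, G s (β i ζ₀) = 0) →
      ∀ᶠ ζ in 𝓝 ζ₀, ∀ s, G s (β i ζ) = 0 := by
    intro i hi
    have hβa : AnalyticAt ℂ (β i) 0 := (analyticAt_id.pow q).prod (hφ i)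
    have hβ0 : β i 0 = 0 := by
      simp [hβ, hi, hq.ne']
    have h1 : ∀ᶠ ζ in 𝓝 (0 : ℂ), AnalyticAt ℂ (β i) ζ ∧ β i ζ ∈ ball (0 : ℂ × ℂ) ρ := by
      refine hβa.eventually_analyticAt.and (hβa.continuousAt.eventually ?_)
      rw [hβ0]
      exact ball_mem_nhds _ hρ
    obtain ⟨r, hr, hb⟩ := Metric.eventually_nhds_iff_ball.1 h1
    have han : ∀ s, AnalyticOnNhd ℂ (fun ζ => G s (β i ζ)) (ball 0 r) := fun s ζ hζ =>
      AnalyticAt.fun_comp (f := β i) (hG s _ (hb ζ hζ).2) (hb ζ hζ).1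
    by_cases h2 : ∀ s, ∀ᶠ ζ in 𝓝 (0 : ℂ), G s (β i ζ) = 0
    · have h3 : ∀ ζ ∈ ball (0 : ℂ) r, ∀ s, G s (β i ζ) = 0 := fun ζ hζ s =>
        (han s).eqOn_zero_of_preconnected_of_eventuallyEq_zero
          (convex_ball _ _).isPreconnected (mem_ball_self hr) (h2 s) hζ
      filter_upwards [ball_mem_nhds (0 : ℂ) hr] with ζ₀ h4 _ _
      filter_upwards [isOpen_ball.mem_nhds h4] with ζ h5
      exact h3 ζ h5
    · obtain ⟨s, hs⟩ := not_forall.1 h2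
      have h3 := (han s 0 (mem_ball_self hr)).eventually_eq_zero_or_eventually_ne_zero.resolve_left hs
      rw [eventually_nhdsWithin_iff] at h3
      filter_upwards [h3] with ζ₀ h4 h5 h6
      exact absurd (h6 s) (h4 h5)
  -- the branches which do not pass through the origin
  have hQ4 : ∀ i, φ i 0 ≠ 0 → ∃ δ > 0, ∀ᶠ ζ in 𝓝 (0 : ℂ), δ < ‖φ i ζ‖ := by
    intro i hi
    refine ⟨‖φ i 0‖ / 2, half_pos (norm_pos_iff.2 hi), ?_⟩
    exact (hφ i).continuousAt.norm.eventually_const_lt (half_lt_self (norm_pos_iff.2 hi))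
  have hT : ∀ᶠ ζ₀ in 𝓝 (0 : ℂ), (∀ i, AnalyticAt ℂ (φ i) ζ₀) ∧
      (∀ᶠ ζ in 𝓝 ζ₀, F (ζ ^ q) = ∏ i, (Polynomial.X - Polynomial.C (φ i ζ))) ∧
      (∀ i j, ζ₀ ≠ 0 → φ i ζ₀ = φ j ζ₀ → ∀ᶠ ζ in 𝓝 ζ₀, φ i ζ = φ j ζ) ∧
      (∀ i, φ i 0 = 0 → ζ₀ ≠ 0 → (∀ s, G s (β i ζ₀) = 0) →
        ∀ᶠ ζ in 𝓝 ζ₀, ∀ s, G s (β i ζ) = 0) := by
    refine (eventually_all.2 fun i => (hφ i).eventually_analyticAt).and
      ((eventually_eventually_nhds.2 hprod).and ((eventually_all.2 fun i => eventually_all.2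
        fun j => hQ3 i j).and (eventually_all.2 fun i => ?_)))
    by_cases hi : φ i 0 = 0
    · filter_upwards [hQ5 i hi] with ζ₀ h1 _
      exact h1
    · exact Eventually.of_forall fun ζ₀ h => absurd h hi
  -- one radius
  have hT4' : ∃ δ > 0, ∃ r > 0, ∀ p ∈ ball (0 : ℂ × ℂ) δ, ∀ ζ ∈ ball (0 : ℂ) r, ∀ i,
      φ i 0 ≠ 0 → φ i ζ ≠ p.2 := by
    have h1 : ∀ i, ∃ δ > 0, ∃ r > 0, ∀ p ∈ ball (0 : ℂ × ℂ) δ, ∀ ζ ∈ ball (0 : ℂ) r,
        φ i 0 ≠ 0 → φ i ζ ≠ p.2 := by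
      intro i
      by_cases hi : φ i 0 = 0
      · exact ⟨1, one_pos, 1, one_pos, fun p _ ζ _ h => absurd hi h⟩
      · obtain ⟨δ, hδ, h1⟩ := hQ4 i hi
        obtain ⟨r, hr, hb⟩ := Metric.eventually_nhds_iff_ball.1 h1
        refine ⟨δ, hδ, r, hr, fun p hp ζ hζ _ h3 => ?_⟩
        have h4 := hb ζ hζ
        rw [h3] at h4
        have h5 : ‖p.2‖ ≤ ‖p‖ := norm_snd_le p
        rw [mem_ball_zero_iff] at hp
        linarith
    choose δ hδ r hr h using h1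
    have h2 : ∃ δ' > 0, ∀ i, δ' ≤ δ i := by
      rcases isEmpty_or_nonempty (Fin b) with he | he
      · exact ⟨1, one_pos, fun i => he.elim i⟩
      · obtain ⟨i, hi⟩ := Finite.exists_min δ
        exact ⟨δ i, hδ i, hi⟩
    have h3 : ∃ r' > 0, ∀ i, r' ≤ r i := by
      rcases isEmpty_or_nonempty (Fin b) with he | he
      · exact ⟨1, one_pos, fun i => he.elim i⟩
      · obtain ⟨i, hi⟩ := Finite.exists_min r
        exact ⟨r i, hr i, hi⟩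
    obtain ⟨δ', hδ', h2⟩ := h2
    obtain ⟨r', hr', h3⟩ := h3
    exact ⟨δ', hδ', r', hr', fun p hp ζ hζ i =>
      h i p (ball_subset_ball (h2 i) hp) ζ (ball_subset_ball (h3 i) hζ)⟩
  obtain ⟨δ, hδ, r₁, hr₁, hsep⟩ := hT4'
  obtain ⟨r₂, hr₂, hTb⟩ := Metric.eventually_nhds_iff_ball.1 hT
  set r : ℝ := min r₁ r₂ with hr
  have hr0 : 0 < r := lt_min hr₁ hr₂
  have hx : ∀ᶠ p in 𝓝 (0 : ℂ × ℂ), ‖p.1‖ < r ^ q := by
    have h3 : ContinuousAt (fun p : ℂ × ℂ => ‖p.1‖) 0 := continuous_fst.norm.continuousAt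
    refine h3.eventually_lt_const ?_
    simpa using pow_pos hr0 q
  rw [eventually_nhdsWithin_iff]
  filter_upwards [hx, ball_mem_nhds (0 : ℂ × ℂ) hδ, eventually_eventually_nhds.2 hGF] with
    p hp1 hp2 hp3 hp0 hpZ
  obtain ⟨ζ₀, hζ₀⟩ := IsAlgClosed.exists_pow_nat_eq p.1 hq
  have hζr : ‖ζ₀‖ < r := by
    rw [← hζ₀, norm_pow] at hp1
    exact lt_of_pow_lt_pow_left₀ q hr0.le hp1
  have hζ1 : ζ₀ ∈ ball (0 : ℂ) r₁ := by
    rw [mem_ball_zero_iff]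
    exact hζr.trans_le (min_le_left _ _)
  have hζ2 : ζ₀ ∈ ball (0 : ℂ) r₂ := by
    rw [mem_ball_zero_iff]
    exact hζr.trans_le (min_le_right _ _)
  obtain ⟨hT1, hT2, hT3, hT5⟩ := hTb ζ₀ hζ2
  have hroot : ∀ ζ y : ℂ, F (ζ ^ q) = ∏ i, (Polynomial.X - Polynomial.C (φ i ζ)) →
      (F (ζ ^ q)).eval y = 0 → ∃ i, y = φ i ζ := by
    intro ζ y h1 h2
    rw [h1, Polynomial.eval_prod, Finset.prod_eq_zero_iff] at h2
    obtain ⟨i, -, hi⟩ := h2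
    refine ⟨i, ?_⟩
    simpa [sub_eq_zero] using hi
  obtain ⟨i, hi⟩ : ∃ i, p.2 = φ i ζ₀ := by
    refine hroot ζ₀ p.2 hT2.self_of_nhds ?_
    have h1 := hp3.self_of_nhds.1 (hpZ s₀)
    rwa [← hζ₀] at h1
  have hi0 : φ i 0 = 0 := by
    by_contra hne
    exact hsep p hp2 ζ₀ hζ1 i hne hi.symm
  have hβp : β i ζ₀ = p := Prod.ext hζ₀ hi.symm
  have hζ0 : ζ₀ ≠ 0 := by
    intro h
    apply hp0
    rw [mem_singleton_iff, ← hβp, h]
    simp [hβ, hi0, hq.ne']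
  have hgood := hT5 i hi0 hζ0 (by rw [hβp]; exact hpZ)
  have hβa : AnalyticAt ℂ (β i) ζ₀ := (analyticAt_id.pow q).prod (hT1 i)
  have hshift : Tendsto (fun t : ℂ => ζ₀ + t) (𝓝 0) (𝓝 ζ₀) := by
    have h1 : ContinuousAt (fun t : ℂ => ζ₀ + t) 0 := (continuous_const.add continuous_id).continuousAt
    have h2 := h1.tendsto
    rwa [add_zero] at h2
  refine ⟨fun t => β i (ζ₀ + t), ?_, ?_, ?_, ?_⟩
  · show β i (ζ₀ + 0) = p
    rw [add_zero, hβp]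
  · have h1 : AnalyticAt ℂ (fun t : ℂ => ζ₀ + t) 0 := analyticAt_const.add analyticAt_id
    refine AnalyticAt.fun_comp (g := β i) (f := fun t : ℂ => ζ₀ + t) ?_ h1
    rw [add_zero]
    exact hβa
  · intro hd
    have h1 : HasDerivAt (fun ζ => β i ζ) ((q : ℂ) * ζ₀ ^ (q - 1), deriv (φ i) ζ₀) ζ₀ :=
      (hasDerivAt_pow q ζ₀).prodMk (hT1 i).differentiableAt.hasDerivAt
    have h2 : HasDerivAt (fun t => β i (ζ₀ + t)) ((q : ℂ) * ζ₀ ^ (q - 1), deriv (φ i) ζ₀) 0 := by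
      have h3 : HasDerivAt (fun ζ => β i ζ) ((q : ℂ) * ζ₀ ^ (q - 1), deriv (φ i) ζ₀) (ζ₀ + 0) := by
        rw [add_zero]
        exact h1
      exact h3.comp_const_add ζ₀ 0
    rw [h2.deriv] at hd
    have h4 := congrArg Prod.fst hd
    have h5 : (q : ℂ) * ζ₀ ^ (q - 1) ≠ 0 := mul_ne_zero (by exact_mod_cast hq.ne') (pow_ne_zero _ hζ0)
    exact h5 h4
  · apply le_antisymm
    · rw [← Tendsto, tendsto_nhdsWithin_iff]
      refine ⟨?_, ?_⟩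
      · have h1 : Tendsto (β i) (𝓝 ζ₀) (𝓝 p) := by
          have h2 := hβa.continuousAt.tendsto
          rwa [hβp] at h2
        exact h1.comp hshift
      · exact hshift.eventually hgood
    · intro N hN
      have hM : ∀ᶠ ζ in 𝓝 ζ₀, β i ζ ∈ N := by
        have h1 : ∀ᶠ t in 𝓝 (0 : ℂ), β i (ζ₀ + t) ∈ N := hN
        have h2 : Tendsto (fun ζ : ℂ => ζ - ζ₀) (𝓝 ζ₀) (𝓝 0) := by
          have h3 : ContinuousAt (fun ζ : ℂ => ζ - ζ₀) ζ₀ :=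
            (continuous_id.sub continuous_const).continuousAt
          have h4 := h3.tendsto
          rwa [sub_self] at h4
        filter_upwards [h2.eventually h1] with ζ h3
        rwa [add_sub_cancel] at h3
      have hj : ∀ᶠ z : ℂ × ℂ in 𝓝 (ζ₀, p.2), ∀ j, φ j z.1 = z.2 → φ j z.1 = φ i z.1 := by
        refine eventually_all.2 fun j => ?_
        by_cases h1 : φ j ζ₀ = φ i ζ₀
        · have h2 := hT3 j i hζ0 h1
          have h3 : Tendsto (Prod.fst : ℂ × ℂ → ℂ) (𝓝 (ζ₀, p.2)) (𝓝 ζ₀) :=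
            continuous_fst.tendsto (ζ₀, p.2)
          filter_upwards [h3.eventually h2] with z h4 _
          exact h4
        · have h2 : ContinuousAt (fun z : ℂ × ℂ => φ j z.1 - z.2) (ζ₀, p.2) := by
            refine ContinuousAt.sub ?_ continuous_snd.continuousAt
            exact ContinuousAt.comp (g := φ j) (f := Prod.fst) (x := ((ζ₀, p.2) : ℂ × ℂ))
              (hT1 j).continuousAt continuous_fst.continuousAt
          have h3 : (fun z : ℂ × ℂ => φ j z.1 - z.2) (ζ₀, p.2) ≠ 0 := by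
            show φ j ζ₀ - p.2 ≠ 0
            rw [hi, sub_ne_zero]
            exact h1
          filter_upwards [h2.eventually_ne h3] with z h4 h5
          exact absurd (sub_eq_zero.2 h5) h4
      have hFz : ∀ᶠ z : ℂ × ℂ in 𝓝 (ζ₀, p.2),
          F (z.1 ^ q) = ∏ i, (Polynomial.X - Polynomial.C (φ i z.1)) ∧ β i z.1 ∈ N := by
        have h3 : Tendsto (Prod.fst : ℂ × ℂ → ℂ) (𝓝 (ζ₀, p.2)) (𝓝 ζ₀) :=
          continuous_fst.tendsto (ζ₀, p.2)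
        exact h3.eventually (hT2.and hM)
      have hopen : map (fun z : ℂ × ℂ => (z.1 ^ q, z.2)) (𝓝 (ζ₀, p.2)) = 𝓝 p := by
        have h1 : map (fun ζ : ℂ => ζ ^ q) (𝓝 ζ₀) = 𝓝 (ζ₀ ^ q) :=
          (hasStrictDerivAt_pow q ζ₀).map_nhds_eq
            (mul_ne_zero (by exact_mod_cast hq.ne') (pow_ne_zero _ hζ0))
        have h2 : (fun z : ℂ × ℂ => (z.1 ^ q, z.2)) = Prod.map (fun ζ : ℂ => ζ ^ q) id := rfl
        rw [h2, nhds_prod_eq, ← Filter.prod_map_map_eq', h1, Filter.map_id, ← nhds_prod_eq, hζ₀]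
      have hev : ∀ᶠ p' in 𝓝 p, ∃ z : ℂ × ℂ, (z.1 ^ q, z.2) = p' ∧
          (∀ j, φ j z.1 = z.2 → φ j z.1 = φ i z.1) ∧
          F (z.1 ^ q) = ∏ i, (Polynomial.X - Polynomial.C (φ i z.1)) ∧ β i z.1 ∈ N := by
        rw [← hopen]
        exact eventually_map.2 ((hj.and hFz).mono fun z hz => ⟨z, rfl, hz⟩)
      rw [mem_nhdsWithin_iff_eventually]
      filter_upwards [hev, hp3] with p' h1 h2 h3
      obtain ⟨z, rfl, h4, h5, h6⟩ := h1
      obtain ⟨j, h7⟩ := hroot z.1 z.2 h5 (h2.1 (h3 s₀))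
      have h8 : z.2 = φ i z.1 := h7.trans (h4 j h7.symm)
      have h9 : ((z.1 ^ q, z.2) : ℂ × ℂ) = β i z.1 := by
        rw [h8]
      rw [h9]
      exact h6

end Pool.Agent.OM
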