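import Pool.Agent.Lib_helper58.OM.A
import Pool.Agent.Lib_helper58.OM.H
import Pool.Agent.Lib_helper58.CF.Notions
import Pool.Agent.Lib_helper82.BR.Statement

/-! # Proper analytic subsets of compact surfaces are curves (MP_45e720_ag) -/

set_option autoImplicit false
set_option linter.unusedVariables false
set_option linter.unusedSectionVars false

open Filter Topology Metric Set
open scoped Manifold ContDiff

namespace Pool.Agent.OM

open Pool.Agent.KZ Pool.Agent.CurveFibres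

section

variable {E X : Type} [NormedAddCommGroup E] [NormedSpace ℂ E] [FiniteDimensional ℂ E]
  [TopologicalSpace X] [ChartedSpace E X] [IsManifold 𝓘(ℂ, E) ω X]

theorem analytic_closed {D : Set X} (hD : IsAnalyticSubset E D) : IsClosed D := by
  rw [← isOpen_compl_iff, isOpen_iff_mem_nhds]
  intro x hx
  obtain ⟨U, hU, 𝒮, h1, h2⟩ := hD x
  have h3 : ¬ ∀ f ∈ 𝒮, f x = 0 := fun h => hx ((h2 x (mem_of_mem_nhds hU)).2 h)
  push Not at h3
  obtain ⟨f, hf, hfx⟩ := h3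
  have hc : ContinuousAt f x := (h1 f hf x (mem_of_mem_nhds hU)).continuousAt
  filter_upwards [hc.eventually_ne hfx, hU] with y hy hyU hyD
  exact hy ((h2 y hyU).1 hyD f hf)

/-- transport of the parametrization of a curve -/
theorem curveAt_chart (c : OpenPartialHomeomorph X E) (hc : c ∈ atlas E X) (ξ₀ : E)
    (L : (ℂ × ℂ) ≃L[ℂ] E) {Z : Set (ℂ × ℂ)} {D : Set X} {w : ℂ × ℂ}
    (hw : ξ₀ + L w ∈ c.target) (hZ : ∀ᶠ w' in 𝓝 w, (w' ∈ Z ↔ c.symm (ξ₀ + L w') ∈ D))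
    {γ : ℂ → ℂ × ℂ} (h0 : γ 0 = w) (hγ : AnalyticAt ℂ γ 0) (hd : deriv γ 0 ≠ 0)
    (hm : map γ (𝓝 0) = 𝓝[Z] w) : IsCurveAt E D (c.symm (ξ₀ + L w)) := by
  have hI1 : IsManifold 𝓘(ℂ, E) 1 X := IsManifold.of_le (n := ω) le_top
  have : CompleteSpace E := FiniteDimensional.complete ℂ E
  have hLa : ∀ w' : ℂ × ℂ, DifferentiableAt ℂ (fun w : ℂ × ℂ => ξ₀ + L w) w' := fun w' =>
    (differentiableAt_const ξ₀).add (L : (ℂ × ℂ) →L[ℂ] E).differentiableAt
  have hLc : Continuous fun w : ℂ × ℂ => ξ₀ + L w := continuous_const.add L.continuous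
  have hT : ∀ᶠ w' in 𝓝 w, ξ₀ + L w' ∈ c.target :=
    hLc.continuousAt.eventually (c.open_target.mem_nhds hw)
  have hγc : Tendsto γ (𝓝 0) (𝓝 w) := by
    have h1 := hγ.continuousAt.tendsto
    rwa [h0] at h1
  have hmd : ∀ᶠ t in 𝓝 (0 : ℂ), MDifferentiableAt 𝓘(ℂ, ℂ) 𝓘(ℂ, E)
      (fun t => c.symm (ξ₀ + L (γ t))) t := by
    filter_upwards [hγ.eventually_analyticAt, hγc.eventually hT] with t h1 h2
    have h3 : MDifferentiableAt 𝓘(ℂ, E) 𝓘(ℂ, E) c.symm (ξ₀ + L (γ t)) :=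
      mdifferentiableAt_atlas_symm (I := 𝓘(ℂ, E)) hc h2
    have h4 : MDifferentiableAt 𝓘(ℂ, ℂ) 𝓘(ℂ, E) (fun t => ξ₀ + L (γ t)) t :=
      (DifferentiableAt.fun_comp' t (hLa (γ t)) h1.differentiableAt).mdifferentiableAt
    exact h3.comp t h4
  refine ⟨fun t => c.symm (ξ₀ + L (γ t)), by simp only [h0], hmd, ?_, ?_⟩
  · intro hv
    apply hd
    have hs : c.symm (ξ₀ + L (γ 0)) ∈ c.source := by
      rw [h0]
      exact c.map_target hw
    have h1 : mfderiv 𝓘(ℂ, ℂ) 𝓘(ℂ, E) (fun t => c.symm (ξ₀ + L (γ t))) 0 (1 : ℂ) = 0 := by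
      exact eq_of_heq (Bundle.TotalSpace.mk.inj hv).2
    have h3 : MDifferentiableAt 𝓘(ℂ, E) 𝓘(ℂ, E) c (c.symm (ξ₀ + L (γ 0))) :=
      mdifferentiableAt_atlas (I := 𝓘(ℂ, E)) hc hs
    have h4 : mfderiv 𝓘(ℂ, ℂ) 𝓘(ℂ, E) (c ∘ fun t => c.symm (ξ₀ + L (γ t))) 0 =
        (mfderiv 𝓘(ℂ, E) 𝓘(ℂ, E) c (c.symm (ξ₀ + L (γ 0)))).comp
          (mfderiv 𝓘(ℂ, ℂ) 𝓘(ℂ, E) (fun t => c.symm (ξ₀ + L (γ t))) 0) :=
      mfderiv_comp 0 h3 hmd.self_of_nhds
    have h5 : (c ∘ fun t => c.symm (ξ₀ + L (γ t))) =ᶠ[𝓝 0] fun t => ξ₀ + L (γ t) := by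
      filter_upwards [hγc.eventually hT] with t ht
      exact c.right_inv ht
    have h6 : mfderiv 𝓘(ℂ, ℂ) 𝓘(ℂ, E) (c ∘ fun t => c.symm (ξ₀ + L (γ t))) 0 =
        fderiv ℂ (fun t => ξ₀ + L (γ t)) 0 := by
      rw [h5.mfderiv_eq, mfderiv_eq_fderiv]
    have h7 : (fderiv ℂ (fun t => ξ₀ + L (γ t)) 0) (1 : ℂ) = 0 := by
      have h8 := DFunLike.congr_fun (h6.symm.trans h4) (1 : ℂ)
      refine h8.trans ?_
      show (mfderiv 𝓘(ℂ, E) 𝓘(ℂ, E) c (c.symm (ξ₀ + L (γ 0))))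
        (mfderiv 𝓘(ℂ, ℂ) 𝓘(ℂ, E) (fun t => c.symm (ξ₀ + L (γ t))) 0 (1 : ℂ)) = 0
      rw [h1, map_zero]
    have h8 : HasDerivAt (fun t => ξ₀ + L (γ t)) (L (deriv γ 0)) 0 := by
      have h9 : HasDerivAt (fun t => L (γ t)) (L (deriv γ 0)) 0 :=
        (L : (ℂ × ℂ) →L[ℂ] E).hasFDerivAt.comp_hasDerivAt (0 : ℂ) hγ.differentiableAt.hasDerivAt
      exact h9.const_add ξ₀
    have h9 : L (deriv γ 0) = 0 := by
      rw [← h8.deriv]
      exact h7
    simpa using h9
  · have h1 : map (fun t => c.symm (ξ₀ + L (γ t))) (𝓝 0) =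
        map (fun w => c.symm (ξ₀ + L w)) (𝓝[Z] w) := by
      rw [← hm, map_map]
      rfl
    rw [h1]
    have hs : c.symm (ξ₀ + L w) ∈ c.source := c.map_target hw
    apply le_antisymm
    · rw [← Tendsto, tendsto_nhdsWithin_iff]
      refine ⟨?_, ?_⟩
      · have h2 : ContinuousAt (fun w : ℂ × ℂ => c.symm (ξ₀ + L w)) w :=
          ContinuousAt.comp (g := c.symm) (f := fun w : ℂ × ℂ => ξ₀ + L w)
            (c.continuousAt_symm hw) hLc.continuousAt
        exact h2.tendsto.mono_left nhdsWithin_le_nhds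
      · rw [eventually_nhdsWithin_iff]
        filter_upwards [hZ] with w' h2 h3
        exact h2.1 h3
    · intro N hN
      have h2 : ∀ᶠ w' in 𝓝 w, w' ∈ Z → c.symm (ξ₀ + L w') ∈ N := by
        rwa [mem_map, mem_nhdsWithin_iff_eventually] at hN
      rw [mem_nhdsWithin_iff_eventually]
      have h3 : Tendsto (fun y => L.symm (c y - ξ₀)) (𝓝 (c.symm (ξ₀ + L w))) (𝓝 w) := by
        have h4 : ContinuousAt (fun y => L.symm (c y - ξ₀)) (c.symm (ξ₀ + L w)) :=
          L.symm.continuous.continuousAt.comp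
            (f := fun y => c y - ξ₀) ((c.continuousAt hs).sub continuousAt_const)
        have h5 := h4.tendsto
        simp only [c.right_inv hw, add_sub_cancel_left, L.symm_apply_apply] at h5
        exact h5
      filter_upwards [h3.eventually (h2.and hZ), c.open_source.mem_nhds hs] with y h4 h5 h6
      have h7 : c.symm (ξ₀ + L (L.symm (c y - ξ₀))) = y := by
        rw [L.apply_symm_apply, add_sub_cancel, c.left_inv h5]
      rw [h7] at h4
      exact h4.1 (h4.2.2 h6)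

/-- the points of a proper analytic subset of a surface near a point -/
theorem curveAt_near [PreconnectedSpace X] (hE : Module.finrank ℂ E = 2) {D : Set X}
    (hD : IsAnalyticSubset E D) (hne : D ≠ univ) (p : X) :
    ∀ᶠ x in 𝓝[≠] p, x ∈ D → IsCurveAt E D x := by
  have hI1 : IsManifold 𝓘(ℂ, E) 1 X := IsManifold.of_le (n := ω) le_top
  obtain ⟨U, hU, 𝒮, hf, hUD⟩ := hD p
  obtain ⟨V, hV, hpV, hVU, hid⟩ := exists_ball (E := E) (interior_mem_nhds.2 hU)
  have hex : ∃ f ∈ 𝒮, ¬ ∀ᶠ y in 𝓝 p, f y = 0 := by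
    by_contra hno
    push Not at hno
    refine not_interior hD hne p ?_
    filter_upwards [hV.mem_nhds hpV] with y hy
    refine (hUD y (interior_subset (hVU hy))).2 fun f hfS => ?_
    exact hid f (fun z hz => hf f hfS z (interior_subset hz)) ⟨p, hpV, hno f hfS⟩ y hy
  obtain ⟨f₀, hf₀, hf₀ne⟩ := hex
  set c := chartAt E p with hc
  have hps : p ∈ c.source := mem_chart_source E p
  have hpt : c p ∈ c.target := c.map_source hps
  have han : ∀ f ∈ 𝒮, ∀ ξ ∈ c.target, c.symm ξ ∈ interior U →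
      AnalyticAt ℂ (fun ξ => f (c.symm ξ)) ξ := by
    intro f hfS ξ hξ hξU
    have h1 := an_chart (E := E) isOpen_interior (f := f)
      (fun y hy => hf f hfS y (interior_subset hy)) p hξU (c.map_target hξ)
    rwa [← hc, c.right_inv hξ] at h1
  have hg0 : AnalyticAt ℂ (fun ξ => f₀ (c.symm ξ)) (c p) := by
    refine han f₀ hf₀ _ hpt ?_
    rw [c.left_inv hps]
    exact mem_interior_iff_mem_nhds.2 hU
  have hgne : ¬ ∀ᶠ ξ in 𝓝 (c p), f₀ (c.symm ξ) = 0 := by
    intro h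
    apply hf₀ne
    filter_upwards [(c.continuousAt hps).eventually h, c.open_source.mem_nhds hps] with y hy hys
    rwa [c.left_inv hys] at hy
  let e : Module.Basis (Fin 2) ℂ E := Module.finBasisOfFinrankEq ℂ E hE
  obtain ⟨L, hL⟩ := pui_coord e hg0 hgne
  have hLc : Continuous fun w : ℂ × ℂ => c p + L w := continuous_const.add L.continuous
  have hev : ∀ᶠ w in 𝓝 (0 : ℂ × ℂ), c p + L w ∈ c.target ∧ c.symm (c p + L w) ∈ interior U := by
    have h1 : Tendsto (fun w : ℂ × ℂ => c p + L w) (𝓝 0) (𝓝 (c p)) := by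
      have h2 := hLc.tendsto 0
      simpa using h2
    have h2 : ∀ᶠ ξ in 𝓝 (c p), c.symm ξ ∈ interior U := by
      refine (c.continuousAt_symm hpt).eventually ?_
      rw [c.left_inv hps]
      exact interior_mem_nhds.2 hU
    have h3 : ∀ᶠ ξ in 𝓝 (c p), ξ ∈ c.target := c.open_target.mem_nhds hpt
    exact h1.eventually (h3.and h2)
  obtain ⟨ρ, hρ, hb⟩ := Metric.eventually_nhds_iff_ball.1 hev
  have hGan : ∀ s : {f // f ∈ 𝒮}, ∀ w ∈ ball (0 : ℂ × ℂ) ρ,
      AnalyticAt ℂ (fun w => s.1 (c.symm (c p + L w))) w := by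
    intro s w hw
    have h1 : AnalyticAt ℂ (fun w : ℂ × ℂ => c p + L w) w :=
      analyticAt_const.add ((L : (ℂ × ℂ) →L[ℂ] E).analyticAt w)
    exact AnalyticAt.fun_comp (g := fun ξ => s.1 (c.symm ξ)) (f := fun w : ℂ × ℂ => c p + L w)
      (han s.1 s.2 _ (hb w hw).1 (hb w hw).2) h1
  have key := pl_curve (G := fun (s : {f // f ∈ 𝒮}) w => s.1 (c.symm (c p + L w))) hρ hGan
    (s₀ := ⟨f₀, hf₀⟩) hL
  have hT : Tendsto (fun y => L.symm (c y - c p)) (𝓝[≠] p) (𝓝[≠] 0) := by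
    rw [tendsto_nhdsWithin_iff]
    refine ⟨?_, ?_⟩
    · have h4 : ContinuousAt (fun y => L.symm (c y - c p)) p :=
        L.symm.continuous.continuousAt.comp
          (f := fun y => c y - c p) ((c.continuousAt hps).sub continuousAt_const)
      have h5 := h4.tendsto
      simp only [sub_self, map_zero] at h5
      exact h5.mono_left nhdsWithin_le_nhds
    · rw [eventually_nhdsWithin_iff]
      filter_upwards [c.open_source.mem_nhds hps] with y hy hyp h0
      apply hyp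
      have h1 : c y - c p = 0 := by
        have h2 : L.symm (c y - c p) = 0 := h0
        exact L.symm.map_eq_zero_iff.1 h2
      exact c.injOn hy hps (sub_eq_zero.1 h1)
  have hT' : Tendsto (fun y => L.symm (c y - c p)) (𝓝[≠] p) (𝓝 0) :=
    hT.mono_right nhdsWithin_le_nhds
  filter_upwards [hT.eventually key, hT'.eventually (ball_mem_nhds (0 : ℂ × ℂ) hρ),
    mem_nhdsWithin_of_mem_nhds (c.open_source.mem_nhds hps)] with x h1 h2 h3 hxD
  set w := L.symm (c x - c p) with hw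
  have hwx : c.symm (c p + L w) = x := by
    rw [hw, L.apply_symm_apply, add_sub_cancel, c.left_inv h3]
  have hmem : ∀ w' ∈ ball (0 : ℂ × ℂ) ρ, ((∀ s : {f // f ∈ 𝒮}, s.1 (c.symm (c p + L w')) = 0) ↔
      c.symm (c p + L w') ∈ D) := by
    intro w' hw'
    rw [hUD _ (interior_subset (hb w' hw').2)]
    exact ⟨fun h f hf => h ⟨f, hf⟩, fun h s => h s.1 s.2⟩
  obtain ⟨γ, g1, g2, g3, g4⟩ := h1 ((hmem w h2).2 (by rw [hwx]; exact hxD))
  have h5 := curveAt_chart (E := E) c (chart_mem_atlas E p) (c p) L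
    (Z := {w | ∀ s : {f // f ∈ 𝒮}, s.1 (c.symm (c p + L w)) = 0}) (D := D) (w := w)
    (hb w h2).1 (by
      filter_upwards [isOpen_ball.mem_nhds h2] with w' hw'
      exact hmem w' hw') g1 g2 g3 g4
  rwa [hwx] at h5

/-- proper analytic subsets of compact surfaces have dimension at most one -/
theorem curveSet_of_analytic [CompactSpace X] [PreconnectedSpace X] (hE : Module.finrank ℂ E = 2)
    {D : Set X} (hD : IsAnalyticSubset E D) (hne : D ≠ univ) : IsCurveSet E D := by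
  refine ⟨analytic_closed hD, {x | x ∈ D ∧ ¬ IsCurveAt E D x}, ?_, ?_⟩
  · have h1 : ∀ p : X, ∃ U ∈ 𝓝 p, (U ∩ {x | x ∈ D ∧ ¬ IsCurveAt E D x}).Finite := by
      intro p
      have h2 := curveAt_near hE hD hne p
      rw [eventually_nhdsWithin_iff] at h2
      refine ⟨_, h2, (finite_singleton p).subset ?_⟩
      rintro x ⟨hx1, hx2, hx3⟩
      by_contra hxp
      exact hx3 (hx1 hxp hx2)
    choose U hU hfin using h1
    obtain ⟨t, -, ht⟩ := (isCompact_univ (X := X)).elim_nhds_subcover U fun p _ => hU p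
    have h3 : {x | x ∈ D ∧ ¬ IsCurveAt E D x} ⊆
        ⋃ p ∈ t, (U p ∩ {x | x ∈ D ∧ ¬ IsCurveAt E D x}) := by
      intro x hx
      have h4 := ht (mem_univ x)
      simp only [mem_iUnion] at h4 ⊢
      obtain ⟨p, hp, hxp⟩ := h4
      exact ⟨p, hp, hxp, hx⟩
    exact (t.finite_toSet.biUnion fun p _ => hfin p).subset h3
  · rintro x ⟨hxD, hx⟩
    by_contra hno
    exact hx ⟨hxD, hno⟩

end

end Pool.Agent.OM
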