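import Pool.Agent.Lib_helper58.OM.Main
import Pool.Agent.Lib_helper58.OM.I
import Pool.Agent.Lib_helper58.OM.Levels
import Pool.Agent.Lib_helper58.CF.Main
import Pool.Agent.Lib_helper58.ND.N3

/-! # Level families (MP_45e720_ag): assembly -/

set_option autoImplicit false
set_option linter.unusedVariables false
set_option linter.unusedSectionVars false

open Filter Topology Metric Set
open scoped Manifold ContDiff

namespace Pool.Agent.OM

open Pool.Agent.BR Pool.Agent.MBS Pool.Agent.SL Pool.Agent.IS Pool.Agent.KZ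
open Pool.Agent.OrbifoldMaps Pool.Agent.CurveFibres

section metric

variable {E X : Type} [NormedAddCommGroup E] [NormedSpace ℂ E] [FiniteDimensional ℂ E]
  [MetricSpace X] [CompactSpace X] [ChartedSpace E X] [IsManifold 𝓘(ℂ, E) ω X]

/-- a Brody curve in a curve set is contained in a rational or elliptic curve -/
theorem curveSet_pimm {A : Cha E X} (hA : ∀ i, ∃ y, A.ch i = chartAt E y) {n : ℕ} {ι : X → PP n}
    (hιP : PImm A n ι) {Z : Set X}
    (hZ : IsCurveSet E Z) {h : ℂ → X} (hh : BrodyRigid.IsBrodyCurve (E := E) h)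
    (hne : ∃ z z', h z ≠ h z') (hhZ : ∀ z, h z ∈ Z) : StrongLang.InTorusCurve E h := by
  have hhA : ∀ z, A.HolAt h z := (BR.holAt_iff A hA h).1 hh.1
  obtain ⟨C, hC⟩ := brody_bound A hA h ((BrodyRigid.isBrodyCurve_iff h).1 hh)
  have hu : ∀ ε > 0, ∃ δ > 0, ∀ z z' : ℂ, ‖z - z'‖ < δ → dist (h z) (h z') < ε := by
    intro ε hε
    obtain ⟨δ, hδ, hd⟩ := equicont A C ε hε
    exact ⟨δ, hδ, hd h hhA hC⟩
  obtain ⟨hZc, S, hS, hp⟩ := hZ
  have hR : Rel3 (fun z => ι (h z)) := by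
    refine CF.rel3_curve hιP.plift hZc hS ?_ hhA hne hhZ
    intro x hx
    obtain ⟨γ, h1, h2, -, h3⟩ := hp x hx
    exact ⟨γ, ⟨h1, h2.mono fun t ht => ht.continuousAt, h3⟩, CF.holAt_of_germ A hA h2⟩
  obtain ⟨g, hg, h3, h4, h5⟩ := lemT hιP hhA hu hne hR
  exact ⟨g, (BR.holAt_iff A hA g).2 hg, h3, h4, h5⟩

/-- the case of manifolds with an immersion to a projective space, and of surfaces -/
theorem curveSet_metric (hX : BrodyRigid.PlaneAmple E X)
    (hP : (∃ (n : ℕ) (ι : X → PP n), ∀ x, ∃ g : X → Fin (n + 1) → ℂ,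
      SS.IsImmersiveLift E X ι g x) ∨ Module.finrank ℂ E = 2) {Z : Set X}
    (hZ : IsCurveSet E Z) {h : ℂ → X} (hh : BrodyRigid.IsBrodyCurve (E := E) h)
    (hne : ∃ z z', h z ≠ h z') (hhZ : ∀ z, h z ∈ Z) : StrongLang.InTorusCurve E h := by
  obtain ⟨A, hA⟩ := exists_cha (E := E) (X := X)
  rcases hP with ⟨n, ι, hι⟩ | h2
  · exact curveSet_pimm hA (CF.pimm_of_immersion A hA hι) hZ hh hne hhZ
  · have : Nonempty X := ⟨h 0⟩
    obtain ⟨L, k, hk, ⟨F⟩⟩ := exists_frm A hA (BrodyRigid.planeAmple_iff.1 hX)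
    let e : Module.Basis (Fin 2) ℂ E := Module.finBasisOfFinrankEq ℂ E h2
    obtain ⟨n, a, ha⟩ := exists_af e F
    obtain ⟨ι, hιP, hιa⟩ := vs_map (af_vs ha)
    exact curveSet_pimm hA (af_imm ha hιa) hZ hh hne hhZ

end metric

section

variable {E X : Type} [NormedAddCommGroup E] [NormedSpace ℂ E] [FiniteDimensional ℂ E]

/-- a Brody curve is doubly periodic or contained in a fibre of a map to a torus -/
theorem torus_dichotomy [t : TopologicalSpace X] [CompactSpace X] [T2Space X] [ChartedSpace E X]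
    [IsManifold 𝓘(ℂ, E) ω X] (hX : BrodyRigid.PlaneAmple E X) {W : Type}
    [NormedAddCommGroup W] [NormedSpace ℂ W] [FiniteDimensional ℂ W] {Γ : Submodule ℤ W}
    [DiscreteTopology Γ] {φ : X → W ⧸ Γ} (hφ : StrongLang.IsTorusValued E Γ φ) {h : ℂ → X}
    (hh : BrodyRigid.IsBrodyCurve (E := E) h) :
    BrodyRigid.DoublyPeriodic h ∨ ∀ z z', φ (h z) = φ (h z') := by
  rcases ND.brody_null hX hh with h1 | h1
  · exact Or.inl h1
  · right
    have hlc : IsLocallyConstant fun z => φ (h z) := by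
      rw [IsLocallyConstant.iff_eventually_eq]
      intro z₀
      have h2 := ND.torus_null (ND.isGerm_shift hh.1 z₀) (h1 z₀) hφ
      have h3 : Tendsto (fun z : ℂ => z - z₀) (𝓝 z₀) (𝓝 0) := by
        have h4 : ContinuousAt (fun z : ℂ => z - z₀) z₀ :=
          (continuous_id.sub continuous_const).continuousAt
        have h5 := h4.tendsto
        rwa [sub_self] at h5
      filter_upwards [h3.eventually h2] with z hz
      simpa using hz
    exact fun z z' => hlc.apply_eq_of_isPreconnected isPreconnected_univ (mem_univ z) (mem_univ z')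

/-- a Brody curve is doubly periodic or contained in a member of the level family -/
theorem level_dichotomy [t : TopologicalSpace X] [CompactSpace X] [T2Space X] [ChartedSpace E X]
    [IsManifold 𝓘(ℂ, E) ω X] (hX : BrodyRigid.PlaneAmple E X) {𝒵 : Set (Set X)}
    (hZ : IsLevelFamily E 𝒵) {h : ℂ → X} (hh : BrodyRigid.IsBrodyCurve (E := E) h) :
    BrodyRigid.DoublyPeriodic h ∨ ∃ Z ∈ 𝒵, ∀ z, h z ∈ Z := by
  rcases hZ with ⟨W, i1, i2, i3, Γ, i4, φ, hφ, rfl⟩ | ⟨n, q, φ, a, m, hφ, rfl⟩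
  · rcases torus_dichotomy hX hφ hh with h1 | h1
    · exact Or.inl h1
    · exact Or.inr ⟨{x | φ x = φ (h 0)}, ⟨h 0, rfl⟩, fun z => h1 z 0⟩
  · rcases dichotomy hX hφ hh with h1 | ⟨b, hb, h1⟩
    · exact Or.inl h1
    · exact Or.inr ⟨{x | linForm b (φ x).rep = 0}, ⟨b, hb, rfl⟩, h1⟩

/-- Brody curves in manifolds with curve levels -/
theorem brody_levels [t : TopologicalSpace X] [CompactSpace X] [T2Space X] [ChartedSpace E X]
    [IsManifold 𝓘(ℂ, E) ω X] (hX : BrodyRigid.PlaneAmple E X)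
    (hP : (∃ (n : ℕ) (ι : X → PP n), ∀ x, ∃ g : X → Fin (n + 1) → ℂ,
      SS.IsImmersiveLift E X ι g x) ∨ Module.finrank ℂ E = 2)
    (hL : HasCurveLevels E X) {h : ℂ → X} (hh : BrodyRigid.IsBrodyCurve (E := E) h)
    (hne : ∃ z z', h z ≠ h z') : StrongLang.InTorusCurve E h := by
  obtain ⟨k, 𝒵, h1, h2⟩ := hL
  by_cases hp : BrodyRigid.DoublyPeriodic h
  · exact ⟨h, hh.1, hp, hne, Subset.rfl⟩
  · have h3 : ∀ j, ∃ Z ∈ 𝒵 j, ∀ z, h z ∈ Z := fun j =>
      (level_dichotomy hX (h1 j) hh).resolve_left hp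
    choose Z h4 h5 using h3
    have h6 := h2 Z h4
    obtain ⟨m, hm, -⟩ := MBS.exists_metric (E := E) (X := X)
    subst hm
    exact curveSet_metric hX hP h6 hh hne fun z => mem_iInter.2 fun j => h5 j z

theorem hyp_levels [TopologicalSpace X] [CompactSpace X] [T2Space X] [ChartedSpace E X]
    [IsManifold 𝓘(ℂ, E) ω X] (hX : BrodyRigid.PlaneAmple E X)
    (hP : (∃ (n : ℕ) (ι : X → PP n), ∀ x, ∃ g : X → Fin (n + 1) → ℂ,
      SS.IsImmersiveLift E X ι g x) ∨ Module.finrank ℂ E = 2)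
    (hL : HasCurveLevels E X) (hT : BrodyRigid.NoEllipticMaps E X) : SS.BrodyHyperbolic E X := by
  obtain ⟨𝒢, g1, -, h3⟩ := SL.main_thm hX
  have h4 := (h3 (by
    intro h hh _
    by_contra hno
    push Not at hno
    obtain ⟨g, h11, h12, ⟨z, z', h13⟩, -⟩ := brody_levels hX hP hL hh hno
    exact h13 (hT g h11 h12 z z'))).2.2
  refine (h4.out 0 1).1 ?_
  rw [eq_empty_iff_forall_notMem]
  intro g hg
  have h6 : ∃ z z', g z ≠ g z' := by
    by_contra hno
    push Not at hno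
    have h7 := g1 g hg
    refine h7.2.2 0 ?_
    have : g = fun _ => g 0 := funext fun z => hno z 0
    rw [this]
    simp [BrodyRigid.velocity, tangentMap]
    rfl
  obtain ⟨z, z', hz⟩ := h6
  exact hz (hT g (g1 g hg).1 (g1 g hg).2.1 z z')

/-- fibres of maps to tori are analytic -/
theorem fibre_analytic [TopologicalSpace X] [ChartedSpace E X] [IsManifold 𝓘(ℂ, E) ω X] {W : Type}
    [NormedAddCommGroup W] [NormedSpace ℂ W] [FiniteDimensional ℂ W] {Γ : Submodule ℤ W}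
    [DiscreteTopology Γ] {φ : X → W ⧸ Γ} (hφ : StrongLang.IsTorusValued E Γ φ) (y : X) :
    IsAnalyticSubset E {x | φ x = φ y} := by
  have hcl : IsClosed (Γ : Set W) := by
    have : DiscreteTopology Γ.toAddSubgroup := inferInstanceAs (DiscreteTopology Γ)
    exact AddSubgroup.isClosed_of_discrete (H := Γ.toAddSubgroup)
  obtain ⟨w₀, hw₀⟩ := Submodule.Quotient.mk_surjective Γ (φ y)
  intro x
  obtain ⟨F, hF⟩ := hφ x
  by_cases hx : φ x = φ y
  · -- near `x` the fibre is given by `F = F x`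
    obtain ⟨ε, hε, hΓ⟩ : ∃ ε > 0, ∀ γ ∈ Γ, ‖γ‖ < ε → γ = 0 := by
      have h1 : ({0} : Set Γ) ∈ 𝓝 (0 : Γ) := by
        rw [nhds_discrete]
        exact mem_singleton _
      obtain ⟨ε, hε, hb⟩ := Metric.mem_nhds_iff.1 h1
      refine ⟨ε, hε, fun γ hγ hn => ?_⟩
      have h2 : (⟨γ, hγ⟩ : Γ) ∈ ball (0 : Γ) ε := by
        rw [mem_ball_zero_iff]
        exact hn
      exact congrArg Subtype.val (hb h2)
    have hFc : ContinuousAt F x := hF.self_of_nhds.1.continuousAt
    have h2 : ∀ᶠ y' in 𝓝 x, ‖F y' - F x‖ < ε := by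
      have h3 : ContinuousAt (fun y' => ‖F y' - F x‖) x := (hFc.sub continuousAt_const).norm
      refine h3.eventually_lt_const ?_
      simpa using hε
    have hx' : Submodule.Quotient.mk (F x) = φ y := by
      rw [← hF.self_of_nhds.2, hx]
    refine ⟨_, hF.and h2, {f | ∃ l : W →L[ℂ] ℂ, f = fun y' => l (F y' - F x)}, ?_, ?_⟩
    · rintro _ ⟨l, rfl⟩ y' ⟨⟨h3, -⟩, -⟩
      have h4 : DifferentiableAt ℂ (fun w : W => l (w - F x)) (F y') :=
        l.differentiableAt.comp (F y') (differentiableAt_id.sub (differentiableAt_const _))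
      exact h4.mdifferentiableAt.comp y' h3
    · rintro y' ⟨⟨h3, h4⟩, h5⟩
      have h6 : (y' ∈ {x | φ x = φ y}) ↔ F y' - F x ∈ Γ := by
        rw [mem_setOf_eq, h4, ← hx', Submodule.Quotient.eq]
      rw [h6]
      constructor
      · rintro h7 _ ⟨l, rfl⟩
        show l (F y' - F x) = 0
        rw [hΓ _ h7 h5, map_zero]
      · intro h7
        have h8 : F y' - F x = 0 := by
          by_contra hne
          obtain ⟨l, hl⟩ := SeparatingDual.exists_ne_zero (R := ℂ) hne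
          exact hl (h7 _ ⟨l, rfl⟩)
        rw [h8]
        exact Γ.zero_mem
  · -- near `x` the fibre is empty
    have h1 : F x - w₀ ∉ (Γ : Set W) := by
      intro h2
      apply hx
      rw [hF.self_of_nhds.2, ← hw₀, Submodule.Quotient.eq]
      exact h2
    have hFc : ContinuousAt F x := hF.self_of_nhds.1.continuousAt
    have h2 : ∀ᶠ y' in 𝓝 x, F y' - w₀ ∉ (Γ : Set W) :=
      (hFc.sub continuousAt_const).eventually (hcl.isOpen_compl.mem_nhds h1)
    refine ⟨_, hF.and h2, {fun _ => 1}, ?_, ?_⟩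
    · rintro _ rfl y' -
      exact mdifferentiableAt_const
    · rintro y' ⟨⟨-, h4⟩, h5⟩
      constructor
      · intro h6
        exfalso
        apply h5
        have h7 : φ y' = φ y := h6
        rw [h4, ← hw₀, Submodule.Quotient.eq] at h7
        exact h7
      · intro h6
        exact absurd (h6 _ rfl) one_ne_zero

/-- on surfaces one level family suffices -/
theorem surface_levels [TopologicalSpace X] [CompactSpace X] [T2Space X] [ConnectedSpace X]
    [ChartedSpace E X] [IsManifold 𝓘(ℂ, E) ω X] (h2 : Module.finrank ℂ E = 2) {𝒵 : Set (Set X)}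
    (hZ : IsLevelFamily E 𝒵) (hu : univ ∉ 𝒵) : HasCurveLevels E X := by
  refine ⟨1, fun _ => 𝒵, fun _ => hZ, fun Z hZj => ?_⟩
  have h3 : (⋂ j, Z j) = Z 0 := by
    ext x
    simp
  rw [h3]
  have h4 : Z 0 ∈ 𝒵 := hZj 0
  have h5 : Z 0 ≠ univ := fun h => hu (h ▸ h4)
  refine curveSet_of_analytic h2 ?_ h5
  rcases hZ with ⟨W, i1, i2, i3, Γ, i4, φ, hφ, rfl⟩ | ⟨n, q, φ, a, m, hφ, rfl⟩
  · obtain ⟨y, hy⟩ := h4
    rw [hy]
    exact fibre_analytic hφ y
  · obtain ⟨b, -, hb⟩ := h4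
    rw [hb]
    exact plane_analytic hφ.hol b

/-- Lang's question -/
theorem levels_main [TopologicalSpace X] [CompactSpace X] [T2Space X]
    [ConnectedSpace X] [ChartedSpace E X] [IsManifold 𝓘(ℂ, E) ω X]
    (hX : BrodyRigid.PlaneAmple E X)
    (hP : SS.IsProjective E X ∨ Module.finrank ℂ E = 2) :
    (HasCurveLevels E X → ∀ h : ℂ → X, BrodyRigid.IsBrodyCurve (E := E) h →
      (∃ z z', h z ≠ h z') → StrongLang.InTorusCurve E h) ∧
    (VirtuallyCurveLevels E X →
      List.TFAE [BrodyRigid.NoEllipticMaps E X, SS.NoTorusMaps E X, SS.BrodyHyperbolic E X,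
        ∀ x : X, StrongLang.HyperbolicAt E x]) := by
  have hP' : (∃ (n : ℕ) (ι : X → PP n), ∀ x, ∃ g : X → Fin (n + 1) → ℂ,
      SS.IsImmersiveLift E X ι g x) ∨ Module.finrank ℂ E = 2 := by
    rcases hP with ⟨n, ι, -, hι⟩ | h2
    · exact Or.inl ⟨n, ι, hι⟩
    · exact Or.inr h2
  refine ⟨fun hL h hh hne => brody_levels hX hP' hL hh hne, fun hV => ?_⟩
  obtain ⟨𝒢, g1, -, h3⟩ := SL.main_thm hX
  have key : SS.BrodyHyperbolic E X → (SS.NoTorusMaps E X ∧ ∀ x : X, StrongLang.HyperbolicAt E x) := by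
    intro hb
    have h4 := (h3 (fun h hh _ => hb h hh.1)).2.2
    exact ⟨(h4.out 1 2).1 hb, (h4.out 1 3).1 hb⟩
  tfae_have 3 → 4 := fun h => (key h).2
  tfae_have 4 → 3 := IS.brody_of_hyp'
  tfae_have 3 → 2 := fun h => (key h).1
  tfae_have 2 → 1 := IS.brody_torus
  tfae_have 1 → 3 := by
    intro hT
    obtain ⟨X', i1, i2, i3, i4, i5, i6, π, h5, h6, h7⟩ := hV
    refine IS.etale_entire h5 h6 (hyp_levels (IS.etale_planeAmple h5 h6 hX) ?_ h7
      (IS.etale_elliptic h5 h6 hT))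
    rcases hP' with ⟨n, ι, hι⟩ | h2
    · exact Or.inl ⟨n, _, CF.etale_immersion h5 h6 hι⟩
    · exact Or.inr h2
  tfae_finish

end

end Pool.Agent.OM
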