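import Pool.Agent.Lib_helper80.IS.Main

/-! # Orbifold maps of surfaces to projective spaces (MP_45e720_ag): analytic subsets -/

set_option autoImplicit false
set_option linter.unusedVariables false
set_option linter.unusedSectionVars false

open Filter Topology Metric Set
open scoped Manifold ContDiff

namespace Pool.Agent.OM

section

/-- `D` is an analytic subset: locally the set of the common zeros of holomorphic functions -/
def IsAnalyticSubset (E : Type) {X : Type} [NormedAddCommGroup E] [NormedSpace ℂ E]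
    [TopologicalSpace X] [ChartedSpace E X] (D : Set X) : Prop :=
  ∀ x, ∃ U ∈ 𝓝 x, ∃ 𝒮 : Set (X → ℂ), (∀ f ∈ 𝒮, ∀ y ∈ U, MDifferentiableAt 𝓘(ℂ, E) 𝓘(ℂ, ℂ) f y) ∧
    ∀ y ∈ U, (y ∈ D ↔ ∀ f ∈ 𝒮, f y = 0)

end

section

variable {E X : Type} [NormedAddCommGroup E] [NormedSpace ℂ E] [FiniteDimensional ℂ E]
  [TopologicalSpace X] [ChartedSpace E X] [IsManifold 𝓘(ℂ, E) ω X]

/-- holomorphic functions are analytic in the charts -/
theorem an_chart {U : Set X} (hU : IsOpen U) {f : X → ℂ}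
    (hf : ∀ y ∈ U, MDifferentiableAt 𝓘(ℂ, E) 𝓘(ℂ, ℂ) f y) (x : X) {y : X} (hy : y ∈ U)
    (hyx : y ∈ (chartAt E x).source) :
    AnalyticAt ℂ (fun ξ => f ((chartAt E x).symm ξ)) (chartAt E x y) := by
  have hO : IsOpen ((chartAt E x).target ∩ (chartAt E x).symm ⁻¹' U) :=
    (chartAt E x).continuousOn_symm.isOpen_inter_preimage (chartAt E x).open_target hU
  refine SS.hol_analytic hO ?_ ⟨(chartAt E x).map_source hyx, ?_⟩
  · intro ξ hξ
    have h1 : MDifferentiableAt 𝓘(ℂ, E) 𝓘(ℂ, E) (chartAt E x).symm ξ :=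
      mdifferentiableAt_atlas_symm (chart_mem_atlas _ _) hξ.1
    exact ((hf _ hξ.2).comp ξ h1).differentiableAt
  · show (chartAt E x).symm (chartAt E x y) ∈ U
    rw [(chartAt E x).left_inv hyx]
    exact hy

/-- small neighbourhoods with the identity theorem -/
theorem exists_ball {x : X} {U : Set X} (hU : U ∈ 𝓝 x) :
    ∃ V : Set X, IsOpen V ∧ x ∈ V ∧ V ⊆ U ∧ ∀ f : X → ℂ,
      (∀ y ∈ U, MDifferentiableAt 𝓘(ℂ, E) 𝓘(ℂ, ℂ) f y) →
      (∃ y ∈ V, ∀ᶠ y' in 𝓝 y, f y' = 0) → ∀ y ∈ V, f y = 0 := by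
  set c := chartAt E x with hc
  have hxc : x ∈ c.source := mem_chart_source E x
  have hO : IsOpen (c.target ∩ c.symm ⁻¹' interior U) :=
    c.continuousOn_symm.isOpen_inter_preimage c.open_target isOpen_interior
  have hx : c x ∈ c.target ∩ c.symm ⁻¹' interior U := by
    refine ⟨c.map_source hxc, ?_⟩
    show c.symm (c x) ∈ interior U
    rw [c.left_inv hxc]
    exact mem_interior_iff_mem_nhds.2 hU
  obtain ⟨r, hr, hrO⟩ := Metric.isOpen_iff.1 hO _ hx
  refine ⟨c.source ∩ c ⁻¹' ball (c x) r, c.continuousOn.isOpen_inter_preimage c.open_source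
    isOpen_ball, ⟨hxc, mem_ball_self hr⟩, ?_, ?_⟩
  · intro y hy
    have h1 := (hrO hy.2).2
    have h2 : c.symm (c y) ∈ interior U := h1
    rw [c.left_inv hy.1] at h2
    exact interior_subset h2
  · rintro f hf ⟨y, hy, hy0⟩ z hz
    have han : AnalyticOnNhd ℂ (fun ξ => f (c.symm ξ)) (ball (c x) r) := by
      intro ξ hξ
      have h1 : c.symm ξ ∈ c.source := c.map_target (hrO hξ).1
      have h2 := an_chart (E := E) isOpen_interior (f := f)
        (fun y hy => hf y (interior_subset hy)) x (hrO hξ).2 h1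
      rw [← hc, c.right_inv (hrO hξ).1] at h2
      exact h2
    have h3 : (fun ξ => f (c.symm ξ)) =ᶠ[𝓝 (c y)] 0 := by
      have h4 : ContinuousAt c.symm (c y) := c.continuousAt_symm (c.map_source hy.1)
      have h5 : ∀ᶠ ξ in 𝓝 (c y), f (c.symm ξ) = 0 := by
        refine h4.eventually (p := fun y' => f y' = 0) ?_
        rw [c.left_inv hy.1]
        exact hy0
      exact h5
    have h6 := han.eqOn_zero_of_preconnected_of_eventuallyEq_zero
      (convex_ball _ _).isPreconnected hy.2 h3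
    have h7 : f (c.symm (c z)) = 0 := h6 hz.2
    rwa [c.left_inv hz.1] at h7

/-- proper analytic subsets have empty interior -/
theorem not_interior [PreconnectedSpace X] {D : Set X} (hD : IsAnalyticSubset E D)
    (hne : D ≠ univ) (x : X) : ¬ ∀ᶠ y in 𝓝 x, y ∈ D := by
  have hopen : IsOpen {x | ∀ᶠ y in 𝓝 x, y ∈ D} := isOpen_setOfPred_eventually_nhds
  have hclosed : IsClosed {x | ∀ᶠ y in 𝓝 x, y ∈ D} := by
    rw [← closure_subset_iff_isClosed]
    intro x hx
    obtain ⟨U, hU, 𝒮, h1, h2⟩ := hD x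
    obtain ⟨V, hV, hxV, hVU, h3⟩ := exists_ball (E := E) (interior_mem_nhds.2 hU)
    obtain ⟨y, hy, hyD⟩ := mem_closure_iff.1 hx V hV hxV
    filter_upwards [hV.mem_nhds hxV] with z hz
    refine (h2 z (interior_subset (hVU hz))).2 fun f hf => ?_
    refine h3 f (fun y hy => h1 f hf y (interior_subset hy)) ⟨y, hy, ?_⟩ z hz
    have hyD' : ∀ᶠ w in 𝓝 y, w ∈ D := hyD
    filter_upwards [hyD', hV.mem_nhds hy] with w hw hwV
    exact (h2 w (interior_subset (hVU hwV))).1 hw f hf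
  intro h
  apply hne
  have h4 := IsClopen.eq_univ ⟨hclosed, hopen⟩ ⟨x, h⟩
  refine eq_univ_of_forall fun y => ?_
  have h5 : y ∈ {x | ∀ᶠ y in 𝓝 x, y ∈ D} := by
    rw [h4]
    exact mem_univ y
  exact Eventually.self_of_nhds h5

/-- identity theorem along entire curves -/
theorem curve_ident {D : Set X} (hD : IsAnalyticSubset E D) {h : ℂ → X}
    (hh : MDifferentiable 𝓘(ℂ, ℂ) 𝓘(ℂ, E) h) {z₀ : ℂ} (h0 : ∀ᶠ z in 𝓝 z₀, h z ∈ D) (z : ℂ) :
    h z ∈ D := by
  have hopen : IsOpen {z | ∀ᶠ w in 𝓝 z, h w ∈ D} := isOpen_setOfPred_eventually_nhds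
  have hclosed : IsClosed {z | ∀ᶠ w in 𝓝 z, h w ∈ D} := by
    rw [← closure_subset_iff_isClosed]
    intro z hz
    obtain ⟨U, hU, 𝒮, h1, h2⟩ := hD (h z)
    have h3 : h ⁻¹' U ∈ 𝓝 z := (hh z).continuousAt.preimage_mem_nhds hU
    obtain ⟨r, hr, hrU⟩ := Metric.mem_nhds_iff.1 h3
    obtain ⟨w, hw, hwD⟩ := mem_closure_iff.1 hz (ball z r) isOpen_ball (mem_ball_self hr)
    filter_upwards [isOpen_ball.mem_nhds (mem_ball_self hr)] with u hu
    refine (h2 _ (hrU hu)).2 fun f hf => ?_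
    have h4 : DifferentiableOn ℂ (fun z => f (h z)) (ball z r) := fun t ht =>
      ((h1 f hf _ (hrU ht)).comp t (hh t)).differentiableAt.differentiableWithinAt
    have h5 : (fun z => f (h z)) =ᶠ[𝓝 w] 0 := by
      have hwD' : ∀ᶠ t in 𝓝 w, h t ∈ D := hwD
      filter_upwards [hwD', isOpen_ball.mem_nhds hw] with t ht htr
      exact (h2 _ (hrU htr)).1 ht f hf
    exact (h4.analyticOnNhd isOpen_ball).eqOn_zero_of_preconnected_of_eventuallyEq_zero
      (convex_ball _ _).isPreconnected hw h5 hu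
  have h6 := IsClopen.eq_univ ⟨hclosed, hopen⟩ ⟨z₀, h0⟩
  have h7 : z ∈ {z | ∀ᶠ w in 𝓝 z, h w ∈ D} := by
    rw [h6]
    exact mem_univ z
  exact Eventually.self_of_nhds (p := fun w => h w ∈ D) h7

end

end Pool.Agent.OM
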