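import Pool.Agent.Lib_helper58.OM.A
import Pool.Agent.Lib_helper82.KZ.P.CHW
import Pool.Agent.Lib_helper82.KZ.P.AD2
import Pool.Agent.Lib_helper82.KZ.P.RL1

/-! # Orbifold maps of surfaces to projective spaces (MP_45e720_ag): curves in analytic subsets -/

set_option autoImplicit false
set_option linter.unusedVariables false
set_option linter.unusedSectionVars false

open Filter Topology Metric Set
open scoped Manifold ContDiff

namespace Pool.Agent.OM

open Pool.Agent.BR Pool.Agent.MBS Pool.Agent.SL Pool.Agent.IS Pool.Agent.KZ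

section metric

variable {E X : Type} [NormedAddCommGroup E] [NormedSpace ℂ E] [FiniteDimensional ℂ E]
  [MetricSpace X] [ChartedSpace E X] [IsManifold 𝓘(ℂ, E) ω X]

/-- proper analytic subsets in the charts -/
theorem as_of_analytic [ConnectedSpace X] {A : Cha E X} (hA : ∀ i, ∃ y, A.ch i = chartAt E y)
    {D : Set X} (hD : IsAnalyticSubset E D) (hne : D ≠ univ) : AS A D := by
  intro x
  obtain ⟨U, hU, 𝒮, h1, h2⟩ := hD x
  obtain ⟨V, hV, hxV, hVU, h3⟩ := exists_ball (E := E) (interior_mem_nhds.2 hU)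
  refine ⟨{f // f ∈ 𝒮}, fun f => f.1, V, hV, hxV, ?_, ?_, ?_⟩
  · intro y hy
    rw [h2 y (interior_subset (hVU hy))]
    exact ⟨fun h f => h f.1 f.2, fun h f hf => h ⟨f, hf⟩⟩
  · intro f y hy i hi
    obtain ⟨y', hy'⟩ := hA i
    rw [hy'] at hi ⊢
    exact an_chart (E := E) isOpen_interior (fun z hz => h1 f.1 f.2 z (interior_subset hz)) y'
      (hVU hy) hi
  · by_contra hno
    push Not at hno
    refine not_interior hD hne x ?_
    filter_upwards [hV.mem_nhds hxV] with y hy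
    refine (h2 y (interior_subset (hVU hy))).2 fun f hf => ?_
    exact h3 f (fun z hz => h1 f hf z (interior_subset hz)) ⟨x, hxV, hno ⟨f, hf⟩⟩ y hy

/-- Brody curves in analytic subsets -/
theorem analytic_metric [CompactSpace X] [ConnectedSpace X] (h2 : Module.finrank ℂ E = 2)
    (hX : BrodyRigid.PlaneAmple E X) {h : ℂ → X} (hh : BrodyRigid.IsBrodyCurve (E := E) h)
    (hne : ∃ z z', h z ≠ h z') {D : Set X} (hD : IsAnalyticSubset E D) (hDne : D ≠ univ)
    (hhD : ∀ z, h z ∈ D) : StrongLang.InTorusCurve E h := by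
  obtain ⟨A, hA⟩ := exists_cha (E := E) (X := X)
  obtain ⟨L, k, hk, ⟨F⟩⟩ := exists_frm A hA (BrodyRigid.planeAmple_iff.1 hX)
  let e : Module.Basis (Fin 2) ℂ E := Module.finBasisOfFinrankEq ℂ E h2
  obtain ⟨n, a, ha⟩ := exists_af e F
  obtain ⟨ι, hιP, hιa⟩ := vs_map (af_vs ha)
  have hι : PImm A n ι := af_imm ha hιa
  have hhA : ∀ z, A.HolAt h z := (BR.holAt_iff A hA h).1 hh.1
  obtain ⟨C, hC⟩ := brody_bound A hA h ((BrodyRigid.isBrodyCurve_iff h).1 hh)
  have hu : ∀ ε > 0, ∃ δ > 0, ∀ z z' : ℂ, ‖z - z'‖ < δ → dist (h z) (h z') < ε := by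
    intro ε hε
    obtain ⟨δ, hδ, hd⟩ := equicont A C ε hε
    exact ⟨δ, hδ, hd h hhA hC⟩
  have hR : Rel3 (fun z => ι (h z)) := by
    refine rel3_of_a hιa fun p q r => ?_
    obtain ⟨d, R, hR0, hRh, hRD⟩ := chow (af_vs ha) (dc_of_as e (as_of_analytic hA hD hDne)) p q r
    exact ⟨d, R, hR0, hRh, fun z i hi => hRD (h z) (hhD z) i hi⟩
  obtain ⟨g, hg, h3, h4, h5⟩ := lemT hι hhA hu hne hR
  exact ⟨g, (BR.holAt_iff A hA g).2 hg, h3, h4, h5⟩

end metric

section

variable {E X : Type} [NormedAddCommGroup E] [NormedSpace ℂ E] [FiniteDimensional ℂ E]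

/-- Brody curves in analytic subsets -/
theorem analytic_curve [t : TopologicalSpace X] [CompactSpace X] [T2Space X]
    [ConnectedSpace X] [ChartedSpace E X] [IsManifold 𝓘(ℂ, E) ω X]
    (h2 : Module.finrank ℂ E = 2) (hX : BrodyRigid.PlaneAmple E X) {h : ℂ → X}
    (hh : BrodyRigid.IsBrodyCurve (E := E) h) (hne : ∃ z z', h z ≠ h z')
    {D : Set X} (hD : IsAnalyticSubset E D) (hDne : D ≠ univ) {z₀ : ℂ}
    (hz : ∀ᶠ z in 𝓝 z₀, h z ∈ D) : StrongLang.InTorusCurve E h := by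
  have hN : ∀ z, h z ∈ D := curve_ident hD hh.1 hz
  obtain ⟨m, hm, -⟩ := MBS.exists_metric (E := E) (X := X)
  subst hm
  exact analytic_metric h2 hX hh hne hD hDne hN

end

end Pool.Agent.OM
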