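import Pool.Agent.Lib_helper82.KZ.P.SCH

/-! # Orbifold maps of surfaces to projective spaces (MP_45e720_ag): functions with multiple zeros -/

set_option autoImplicit false
set_option linter.unusedVariables false
set_option linter.unusedSectionVars false

open Filter Topology Metric Set

namespace Pool.Agent.OM

/-- roots on a ball -/
theorem exists_root {g : ℂ → ℂ} {R : ℝ} (hR : 0 < R) (hg : DifferentiableOn ℂ g (ball 0 R))
    (hg0 : ∀ z ∈ ball (0 : ℂ) R, g z ≠ 0) {m : ℕ} (hm : 0 < m) :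
    ∃ k : ℂ → ℂ, DifferentiableOn ℂ k (ball 0 R) ∧ ∀ z ∈ ball (0 : ℂ) R, k z ^ m = g z := by
  have hcb : (0 : ℂ) ∈ ball (0 : ℂ) R := mem_ball_self hR
  have h1 : DifferentiableOn ℂ (logDeriv g) (ball 0 R) := by
    have h2 : DifferentiableOn ℂ (deriv g) (ball 0 R) := hg.deriv isOpen_ball
    exact h2.div hg hg0
  obtain ⟨h, hc, hh⟩ := h1.isExactOn_ball.with_val_at 0 0
  have hd : DifferentiableOn ℂ h (ball 0 R) := fun z hz =>
    (hh z hz).differentiableAt.differentiableWithinAt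
  have hG : ∀ z ∈ ball (0 : ℂ) R, HasDerivAt (fun w => g w * Complex.exp (-(h w))) 0 z := by
    intro z hz
    have hgz : HasDerivAt g (deriv g z) z :=
      (hg.differentiableAt (isOpen_ball.mem_nhds hz)).hasDerivAt
    have h4 : HasDerivAt (fun w => g w * Complex.exp (-(h w))) _ z :=
      hgz.mul ((hh z hz).neg.cexp)
    refine h4.congr_deriv ?_
    rw [logDeriv_apply]
    have := hg0 z hz
    simp only [Pi.neg_apply]
    field_simp
    ring
  have hexp : ∀ z ∈ ball (0 : ℂ) R, g z = g 0 * Complex.exp (h z) := by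
    intro z hz
    have h4 := (convex_ball (0 : ℂ) R).is_const_of_fderivWithin_eq_zero (𝕜 := ℂ)
      (f := fun w => g w * Complex.exp (-(h w))) (x := z) (y := 0)
      (fun z hz => (hG z hz).differentiableAt.differentiableWithinAt) (by
        intro z hz
        have h3 := (hG z hz).hasFDerivAt
        rw [h3.hasFDerivWithinAt.fderivWithin (isOpen_ball.uniqueDiffWithinAt hz)]
        ext; simp) hz hcb
    simp only [hc, neg_zero, Complex.exp_zero, mul_one] at h4
    rw [← h4, mul_assoc, ← Complex.exp_add]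
    simp
  obtain ⟨a, ha⟩ := IsAlgClosed.exists_pow_nat_eq (g 0) hm
  have hm' : (m : ℂ) ≠ 0 := Nat.cast_ne_zero.2 hm.ne'
  refine ⟨fun z => a * Complex.exp (h z / m), ?_, fun z hz => ?_⟩
  · exact ((hd.div_const _).cexp).const_mul a
  · rw [mul_pow, ha, ← Complex.exp_nat_mul, hexp z hz]
    congr 2
    field_simp

/-- zero-free functions -/
theorem root_step {f : ℂ → ℂ} {d B : ℝ} {m : ℕ} (hd : 0 < d) (hm : 0 < m)
    (hf : DifferentiableOn ℂ f (ball 0 d)) (hf0 : ∀ z ∈ ball (0 : ℂ) d, f z ≠ 0)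
    (hB : ∀ z ∈ ball (0 : ℂ) d, ‖f z‖ ≤ B) :
    ‖deriv f 0‖ ^ m ≤ (2 * m / d) ^ m * B * ‖f 0‖ ^ (m - 1) := by
  obtain ⟨k, hk, hkf⟩ := exists_root hd hf hf0 hm
  have h0 : (0 : ℂ) ∈ ball (0 : ℂ) d := mem_ball_self hd
  have hB0 : 0 ≤ B := (norm_nonneg _).trans (hB 0 h0)
  set C : ℝ := B ^ ((m : ℝ)⁻¹) with hC
  have hC0 : 0 ≤ C := Real.rpow_nonneg hB0 _
  have hCm : C ^ m = B := Real.rpow_inv_natCast_pow hB0 hm.ne'
  have hkC : ∀ z ∈ ball (0 : ℂ) d, ‖k z‖ ≤ C := by
    intro z hz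
    refine (pow_le_pow_iff_left₀ (norm_nonneg _) hC0 hm.ne').1 ?_
    rw [← norm_pow, hkf z hz, hCm]
    exact hB z hz
  have h1 : ‖deriv k 0‖ ≤ C / (d / 2) := by
    refine Complex.norm_deriv_le_of_forall_mem_sphere_norm_le (by positivity) ?_ ?_
    · refine (hk.mono ?_).diffContOnCl
      rw [closure_ball _ (by positivity : d / 2 ≠ 0)]
      exact closedBall_subset_ball (by linarith)
    · intro z hz
      refine hkC z ?_
      rw [mem_sphere] at hz
      rw [mem_ball, hz]
      linarith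
  have h2 : HasDerivAt k (deriv k 0) 0 :=
    (hk.differentiableAt (isOpen_ball.mem_nhds h0)).hasDerivAt
  have h3 : HasDerivAt f (m * k 0 ^ (m - 1) * deriv k 0) 0 := by
    refine (h2.pow m).congr_of_eventuallyEq ?_
    filter_upwards [isOpen_ball.mem_nhds h0] with z hz
    exact (hkf z hz).symm
  rw [h3.deriv, norm_mul, norm_mul, norm_pow, Complex.norm_natCast, mul_pow, mul_pow]
  have h4 : (‖k 0‖ ^ (m - 1)) ^ m = ‖f 0‖ ^ (m - 1) := by
    rw [← hkf 0 h0, norm_pow, ← pow_mul, ← pow_mul, mul_comm]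
  rw [h4]
  have h5 : ‖deriv k 0‖ ^ m ≤ (C / (d / 2)) ^ m := pow_le_pow_left₀ (norm_nonneg _) h1 m
  calc (m : ℝ) ^ m * ‖f 0‖ ^ (m - 1) * ‖deriv k 0‖ ^ m
      ≤ (m : ℝ) ^ m * ‖f 0‖ ^ (m - 1) * (C / (d / 2)) ^ m := by gcongr
    _ = (2 * m / d) ^ m * B * ‖f 0‖ ^ (m - 1) := by
      rw [← hCm]
      have : (2 * m / d) ^ m * C ^ m = (m : ℝ) ^ m * (C / (d / 2)) ^ m := by
        rw [← mul_pow, ← mul_pow]
        congr 1
        field_simp
      rw [this]
      ring

/-- the nearest zero -/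
theorem near_zero {f : ℂ → ℂ} {r M : ℝ} {m : ℕ} (hr : 0 < r) (hm : 0 < m)
    (hf : DifferentiableOn ℂ f (ball 0 r)) (hM : ∀ z ∈ ball (0 : ℂ) r, ‖f z‖ ≤ M)
    (h0 : ∀ w ∈ ball (0 : ℂ) r, f w = 0 → ∀ k < m, iteratedDeriv k f w = 0) (hf0 : f 0 ≠ 0) :
    ∃ d, 0 < d ∧ d ≤ r / 2 ∧ (∀ z ∈ ball (0 : ℂ) d, f z ≠ 0) ∧
      ∀ z ∈ ball (0 : ℂ) d, ‖f z‖ ≤ M * (6 * d / r) ^ m := by
  have h00 : (0 : ℂ) ∈ ball (0 : ℂ) r := mem_ball_self hr
  have hM0 : 0 ≤ M := (norm_nonneg _).trans (hM 0 h00)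
  by_cases hZ : ∃ w ∈ closedBall (0 : ℂ) (r / 2), f w = 0
  · have hcomp : IsCompact (closedBall (0 : ℂ) (r / 2) ∩ f ⁻¹' {0}) := by
      refine (isCompact_closedBall (0 : ℂ) (r / 2)).of_isClosed_subset ?_ inter_subset_left
      refine ContinuousOn.preimage_isClosed_of_isClosed ?_ isClosed_closedBall
        isClosed_singleton
      exact hf.continuousOn.mono (closedBall_subset_ball (by linarith))
    obtain ⟨w, ⟨hw1, hw2⟩, hw3⟩ := hcomp.exists_isMinOn
      (by obtain ⟨w, hw, hw'⟩ := hZ; exact ⟨w, hw, hw'⟩) continuous_norm.continuousOn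
    have hw2' : f w = 0 := hw2
    have hwne : w ≠ 0 := by
      rintro rfl
      exact hf0 hw2'
    have hw1' : ‖w‖ ≤ r / 2 := by simpa using hw1
    refine ⟨‖w‖, norm_pos_iff.2 hwne, hw1', ?_, ?_⟩
    · intro z hz hz0
      rw [mem_ball_zero_iff] at hz
      have h1 : z ∈ closedBall (0 : ℂ) (r / 2) ∩ f ⁻¹' {0} := by
        refine ⟨?_, hz0⟩
        rw [mem_closedBall_zero_iff]
        linarith
      have h2 : ‖w‖ ≤ ‖z‖ := hw3 h1
      linarith
    · intro z hz
      rw [mem_ball_zero_iff] at hz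
      by_cases hc : ‖z - w‖ ≤ r / 3
      · -- Schwarz lemma at `w`
        have hr3 : (0 : ℝ) < r / 3 := by positivity
        set F : ℂ → ℂ := fun ζ => f (w + (r / 3 : ℝ) * ζ) with hF
        have hmem : ∀ ζ ∈ closedBall (0 : ℂ) 1, w + (r / 3 : ℝ) * ζ ∈ ball (0 : ℂ) r := by
          intro ζ hζ
          rw [mem_closedBall_zero_iff] at hζ
          rw [mem_ball_zero_iff]
          calc ‖w + (r / 3 : ℝ) * ζ‖ ≤ ‖w‖ + ‖((r / 3 : ℝ) : ℂ) * ζ‖ := norm_add_le _ _
            _ = ‖w‖ + r / 3 * ‖ζ‖ := by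
              rw [norm_mul, Complex.norm_real, Real.norm_of_nonneg hr3.le]
            _ ≤ r / 2 + r / 3 * 1 := by gcongr
            _ < r := by linarith
        have han : ∀ ζ ∈ closedBall (0 : ℂ) 1, AnalyticAt ℂ F ζ := by
          intro ζ hζ
          have h1 : AnalyticAt ℂ f (w + (r / 3 : ℝ) * ζ) :=
            hf.analyticAt (isOpen_ball.mem_nhds (hmem ζ hζ))
          have h2 : AnalyticAt ℂ (fun ζ : ℂ => w + (r / 3 : ℝ) * ζ) ζ := by fun_prop
          exact AnalyticAt.fun_comp (g := f) h1 h2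
        have hz' : ∀ k < m, iteratedDeriv k F 0 = 0 := by
          intro k hk
          have hw4 : w ∈ ball (0 : ℂ) r := by
            rw [mem_ball_zero_iff]
            linarith
          have hfw : AnalyticAt ℂ f w := hf.analyticAt (isOpen_ball.mem_nhds hw4)
          have h1 : (m : ℕ∞) ≤ analyticOrderAt f w :=
            (natCast_le_analyticOrderAt_iff_iteratedDeriv_eq_zero hfw).mpr (h0 w hw4 hw2')
          obtain ⟨g, hg, hfg⟩ := (natCast_le_analyticOrderAt hfw).mp h1
          have h2 : (m : ℕ∞) ≤ analyticOrderAt F 0 := by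
            refine (natCast_le_analyticOrderAt (han 0 (by simp))).mpr
              ⟨fun ζ => ((r / 3 : ℝ) : ℂ) ^ m * g (w + (r / 3 : ℝ) * ζ), ?_, ?_⟩
            · have h3 : AnalyticAt ℂ g (w + (r / 3 : ℝ) * (0 : ℂ)) := by simpa using hg
              have h4 : AnalyticAt ℂ (fun ζ : ℂ => w + (r / 3 : ℝ) * ζ) 0 := by fun_prop
              exact analyticAt_const.mul (AnalyticAt.fun_comp (g := g) h3 h4)
            · have h5 : Tendsto (fun ζ : ℂ => w + (r / 3 : ℝ) * ζ) (𝓝 0) (𝓝 w) := by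
                have h6 : ContinuousAt (fun ζ : ℂ => w + (r / 3 : ℝ) * ζ) 0 := by fun_prop
                have h7 := h6.tendsto
                simpa using h7
              filter_upwards [h5.eventually hfg] with ζ hζ
              show f (w + (r / 3 : ℝ) * ζ) = _
              rw [hζ]
              simp only [add_sub_cancel_left, sub_zero, smul_eq_mul, mul_pow]
              ring
          exact (natCast_le_analyticOrderAt_iff_iteratedDeriv_eq_zero (han 0 (by simp))).mp h2 k hk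
        have h1 := KZ.schwarz_disc han (fun ζ hζ => hM _ (hmem ζ hζ)) hz'
          ((z - w) / (r / 3 : ℝ)) (by
            rw [mem_closedBall_zero_iff, norm_div, Complex.norm_real, Real.norm_of_nonneg hr3.le,
              div_le_one hr3]
            exact hc)
        have h2 : F ((z - w) / (r / 3 : ℝ)) = f z := by
          show f _ = f z
          congr 1
          have : ((r / 3 : ℝ) : ℂ) ≠ 0 := by
            simpa using hr.ne'
          rw [mul_div_cancel₀ _ this]
          ring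
        rw [h2, norm_div, Complex.norm_real, Real.norm_of_nonneg hr3.le] at h1
        refine h1.trans ?_
        have h3 : ‖z - w‖ ≤ 2 * ‖w‖ := (norm_sub_le _ _).trans (by linarith)
        have h4 : ‖z - w‖ / (r / 3) ≤ 6 * ‖w‖ / r := by
          have h5 : ‖z - w‖ / (r / 3) = 3 * ‖z - w‖ / r := by field_simp
          rw [h5]
          exact div_le_div_of_nonneg_right (by linarith) hr.le
        gcongr
      · push Not at hc
        have h1 : r / 3 < 2 * ‖w‖ := hc.trans_le ((norm_sub_le _ _).trans (by linarith))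
        have h2 : 1 ≤ 6 * ‖w‖ / r := by
          rw [le_div_iff₀ hr]
          linarith
        have h3 : z ∈ ball (0 : ℂ) r := by
          rw [mem_ball_zero_iff]
          linarith
        calc ‖f z‖ ≤ M := hM z h3
          _ = M * 1 := (mul_one _).symm
          _ ≤ M * (6 * ‖w‖ / r) ^ m := by
            gcongr
            exact one_le_pow₀ h2
  · push Not at hZ
    refine ⟨r / 2, by positivity, le_rfl, fun z hz => hZ z (ball_subset_closedBall hz), ?_⟩
    intro z hz
    have h1 : z ∈ ball (0 : ℂ) r := ball_subset_ball (by linarith) hz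
    have h2 : 6 * (r / 2) / r = 3 := by
      field_simp
      norm_num
    rw [h2]
    calc ‖f z‖ ≤ M := hM z h1
      _ = M * 1 := (mul_one _).symm
      _ ≤ M * 3 ^ m := by
        gcongr
        exact one_le_pow₀ (by norm_num)

/-- functions all of whose zeros are multiple -/
theorem root_est {f : ℂ → ℂ} {r M : ℝ} {m : ℕ} (hr : 0 < r) (hm : 0 < m)
    (hf : DifferentiableOn ℂ f (ball 0 r)) (hM : ∀ z ∈ ball (0 : ℂ) r, ‖f z‖ ≤ M)
    (h0 : ∀ w ∈ ball (0 : ℂ) r, f w = 0 → ∀ k < m, iteratedDeriv k f w = 0) :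
    ‖deriv f 0‖ ^ m ≤ (12 * m / r) ^ m * M * ‖f 0‖ ^ (m - 1) := by
  have h00 : (0 : ℂ) ∈ ball (0 : ℂ) r := mem_ball_self hr
  have hM0 : 0 ≤ M := (norm_nonneg _).trans (hM 0 h00)
  rcases Nat.lt_or_ge m 2 with hm2 | hm2
  · obtain rfl : m = 1 := by omega
    have h1 : ‖deriv f 0‖ ≤ M / (r / 2) := by
      refine Complex.norm_deriv_le_of_forall_mem_sphere_norm_le (by positivity) ?_ ?_
      · refine (hf.mono ?_).diffContOnCl
        rw [closure_ball _ (by positivity : r / 2 ≠ 0)]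
        exact closedBall_subset_ball (by linarith)
      · intro z hz
        refine hM z ?_
        rw [mem_sphere] at hz
        rw [mem_ball, hz]
        linarith
    simp only [pow_one, Nat.cast_one, mul_one, Nat.sub_self, pow_zero]
    refine h1.trans ?_
    have h2 : M / (r / 2) = 2 / r * M := by field_simp
    rw [h2]
    gcongr
    norm_num
  by_cases hf0 : f 0 = 0
  · have h1 : deriv f 0 = 0 := by
      have := h0 0 h00 hf0 1 (by omega)
      rwa [iteratedDeriv_one] at this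
    rw [h1, norm_zero, zero_pow (by omega)]
    positivity
  obtain ⟨d, hd, hdr, hfree, hbd⟩ := near_zero hr hm hf hM h0 hf0
  have h1 := root_step hd hm (hf.mono (ball_subset_ball (by linarith))) hfree hbd
  refine h1.trans (le_of_eq ?_)
  have h2 : (2 * (m : ℝ) / d) ^ m * (M * (6 * d / r) ^ m) = (12 * m / r) ^ m * M := by
    have h3 : (2 * (m : ℝ) / d) * (6 * d / r) = 12 * m / r := by
      field_simp
      ring
    rw [← h3, mul_pow]
    ring
  rw [h2]

/-- Cauchy's estimate -/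
theorem cauchy_est {f : ℂ → ℂ} {r M : ℝ} (hr : 0 < r) (hf : DifferentiableOn ℂ f (ball 0 r))
    (hM : ∀ z ∈ ball (0 : ℂ) r, ‖f z‖ ≤ M) (k : ℕ) :
    ‖iteratedDeriv k f 0‖ ≤ k.factorial * M / (r / 2) ^ k := by
  refine Complex.norm_iteratedDeriv_le_of_forall_mem_sphere_norm_le k (by positivity) ?_ ?_
  · refine (hf.mono ?_).diffContOnCl
    rw [closure_ball _ (by positivity : r / 2 ≠ 0)]
    exact closedBall_subset_ball (by linarith)
  · intro z hz
    refine hM z ?_
    rw [mem_sphere] at hz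
    rw [mem_ball, hz]
    linarith

/-- higher derivatives of functions all of whose zeros are multiple -/
theorem root_high {r M : ℝ} {m k : ℕ} (hr : 0 < r) (hm : 0 < m) (hk : k ≤ m) :
    ∃ C : ℝ, 0 ≤ C ∧ ∀ f : ℂ → ℂ, DifferentiableOn ℂ f (ball 0 r) →
      (∀ z ∈ ball (0 : ℂ) r, ‖f z‖ ≤ M) →
      (∀ w ∈ ball (0 : ℂ) r, f w = 0 → ∀ k < m, iteratedDeriv k f w = 0) →
      ‖iteratedDeriv k f 0‖ ^ m ≤ C * ‖f 0‖ ^ (m - k) := by
  rcases lt_or_ge M 0 with hM | hM
  · refine ⟨0, le_rfl, fun f _ h _ => ?_⟩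
    have := (norm_nonneg _).trans (h 0 (mem_ball_self hr))
    linarith
  rcases hk.eq_or_lt with rfl | hkm
  · refine ⟨(k.factorial * M / (r / 2) ^ k) ^ k, by positivity, fun f hf hb _ => ?_⟩
    rw [Nat.sub_self, pow_zero, mul_one]
    exact pow_le_pow_left₀ (norm_nonneg _) (cauchy_est hr hf hb k) k
  set M₁ : ℝ := M ^ ((m : ℝ)⁻¹) with hM₁
  have hM₁0 : 0 ≤ M₁ := Real.rpow_nonneg hM _
  have hM₁m : M₁ ^ m = M := Real.rpow_inv_natCast_pow hM hm.ne'
  set B : ℝ := M₁ * 6 / r with hB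
  have hB0 : 0 ≤ B := by positivity
  refine ⟨(k.factorial * 3 ^ m * (4 * B) ^ k) ^ m, by positivity, fun f hf hb h0 => ?_⟩
  by_cases hf0 : f 0 = 0
  · have h1 := h0 0 (mem_ball_self hr) hf0 k hkm
    rw [h1, norm_zero, zero_pow hm.ne']
    positivity
  obtain ⟨d, hd, hdr, hfree, hbd⟩ := near_zero hr hm hf hb h0 hf0
  obtain ⟨g, hg, hgf⟩ := exists_root hd (hf.mono (ball_subset_ball (by linarith))) hfree hm
  have h0d : (0 : ℂ) ∈ ball (0 : ℂ) d := mem_ball_self hd
  have hgB : ∀ z ∈ ball (0 : ℂ) d, ‖g z‖ ≤ B * d := by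
    intro z hz
    refine (pow_le_pow_iff_left₀ (norm_nonneg _) (by positivity) hm.ne').1 ?_
    rw [← norm_pow, hgf z hz]
    refine (hbd z hz).trans (le_of_eq ?_)
    rw [← hM₁m, ← mul_pow, hB]
    congr 1
    field_simp
  set s : ℝ := ‖g 0‖ with hs
  have hs0 : 0 < s := by
    refine norm_pos_iff.2 fun h => hf0 ?_
    rw [← hgf 0 h0d, h, zero_pow hm.ne']
  have hsf : s ^ m = ‖f 0‖ := by rw [← hgf 0 h0d, norm_pow]
  have hBd : s ≤ B * d := hgB 0 h0d
  have hBpos : 0 < B := by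
    rcases hB0.eq_or_lt with h | h
    · rw [← h, zero_mul] at hBd
      linarith
    · exact h
  set ρ : ℝ := s / (4 * B) with hρ
  have hρ0 : 0 < ρ := by positivity
  have hρd : ρ ≤ d / 4 := by
    rw [hρ, div_le_iff₀ (by positivity)]
    linarith
  -- the derivative of the root
  have hder : ∀ z ∈ ball (0 : ℂ) (d / 2), ‖deriv g z‖ ≤ 4 * B := by
    intro z hz
    rw [mem_ball_zero_iff] at hz
    have h1 : ‖deriv g z‖ ≤ B * d / (d / 4) := by
      refine Complex.norm_deriv_le_of_forall_mem_sphere_norm_le (by positivity) ?_ ?_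
      · refine (hg.mono ?_).diffContOnCl
        rw [closure_ball _ (by positivity : d / 4 ≠ 0)]
        intro w hw
        rw [mem_closedBall, dist_eq_norm] at hw
        rw [mem_ball_zero_iff]
        calc ‖w‖ = ‖(w - z) + z‖ := by rw [sub_add_cancel]
          _ ≤ ‖w - z‖ + ‖z‖ := norm_add_le _ _
          _ < d := by linarith
      · intro w hw
        refine hgB w ?_
        rw [mem_sphere, dist_eq_norm] at hw
        rw [mem_ball_zero_iff]
        calc ‖w‖ = ‖(w - z) + z‖ := by rw [sub_add_cancel]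
          _ ≤ ‖w - z‖ + ‖z‖ := norm_add_le _ _
          _ < d := by linarith
    refine h1.trans (le_of_eq ?_)
    field_simp
  have hval : ∀ z ∈ ball (0 : ℂ) (2 * ρ), ‖f z‖ ≤ (3 * s) ^ m := by
    intro z hz
    rw [mem_ball_zero_iff] at hz
    have hzd : z ∈ ball (0 : ℂ) (d / 2) := by
      rw [mem_ball_zero_iff]
      linarith
    have hzd' : z ∈ ball (0 : ℂ) d := by
      rw [mem_ball_zero_iff]
      linarith
    have h1 := (convex_ball (0 : ℂ) (d / 2)).norm_image_sub_le_of_norm_deriv_le (f := g) (C := 4 * B)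
      (fun w hw => hg.differentiableAt (isOpen_ball.mem_nhds (ball_subset_ball (by linarith) hw)))
      hder (mem_ball_self (by positivity)) hzd
    rw [sub_zero] at h1
    have h2 : ‖g z‖ ≤ 3 * s := by
      calc ‖g z‖ = ‖(g z - g 0) + g 0‖ := by rw [sub_add_cancel]
        _ ≤ ‖g z - g 0‖ + ‖g 0‖ := norm_add_le _ _
        _ ≤ 4 * B * (2 * ρ) + s := by
          gcongr
          exact h1.trans (by gcongr)
        _ = 3 * s := by
          rw [hρ]
          field_simp
          ring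
    rw [← hgf z hzd', norm_pow]
    exact pow_le_pow_left₀ (norm_nonneg _) h2 m
  have h3 := cauchy_est (by positivity : 0 < 2 * ρ)
    (hf.mono (ball_subset_ball (by linarith))) hval k
  have h4 : (k.factorial : ℝ) * (3 * s) ^ m / (2 * ρ / 2) ^ k =
      (k.factorial * 3 ^ m * (4 * B) ^ k) * s ^ (m - k) := by
    have h5 : s ^ m = s ^ (m - k) * s ^ k := by rw [← pow_add, Nat.sub_add_cancel hkm.le]
    have h6 : 2 * ρ / 2 = s / (4 * B) := by rw [hρ]; ring
    rw [h6, mul_pow, h5, div_pow]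
    field_simp
  rw [h4] at h3
  calc ‖iteratedDeriv k f 0‖ ^ m ≤ ((k.factorial * 3 ^ m * (4 * B) ^ k) * s ^ (m - k)) ^ m :=
        pow_le_pow_left₀ (norm_nonneg _) h3 m
    _ = (k.factorial * 3 ^ m * (4 * B) ^ k) ^ m * ‖f 0‖ ^ (m - k) := by
      rw [mul_pow, ← hsf, ← pow_mul, ← pow_mul, mul_comm (m - k) m]

end Pool.Agent.OM
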