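import Pool.Agent.Lib_helper58.OM.C

/-! # Orbifold maps of surfaces to projective spaces (MP_45e720_ag): the estimate near a point -/

set_option autoImplicit false
set_option linter.unusedVariables false
set_option linter.unusedSectionVars false

open Filter Topology Metric Set

namespace Pool.Agent.OM

section

variable {E : Type} [NormedAddCommGroup E] [NormedSpace ℂ E]

/-- one function -/
theorem loc_single {O : Set E} (hO : IsOpen O) {D : E → ℂ} (hD : DifferentiableOn ℂ D O) {ξ₀ : E}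
    (hξ : ξ₀ ∈ O) {m : ℕ} (hm : 0 < m)
    (h0 : ∀ ξ ∈ O, ∀ v : E, D ξ = 0 → ∀ k < m, iteratedDeriv k (fun t : ℂ => D (ξ + t • v)) 0 = 0) :
    ∃ C : ℝ, 0 ≤ C ∧ ∀ᶠ ξ in 𝓝 ξ₀, ∀ v : E,
      ‖fderiv ℂ D ξ v‖ ^ m ≤ C * ‖v‖ ^ m * ‖D ξ‖ ^ (m - 1) := by
  have h1 : ∀ᶠ ξ in 𝓝 ξ₀, ξ ∈ O ∧ ‖D ξ‖ < ‖D ξ₀‖ + 1 := by
    refine Eventually.and (hO.mem_nhds hξ) ?_
    exact ((hD.differentiableAt (hO.mem_nhds hξ)).continuousAt.norm).eventually_lt_const
      (by simp)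
  obtain ⟨ρ, hρ, hb⟩ := Metric.eventually_nhds_iff_ball.1 h1
  set M := ‖D ξ₀‖ + 1 with hM
  have hM0 : 0 ≤ M := by positivity
  refine ⟨(12 * m / (ρ / 2)) ^ m * M, by positivity, ?_⟩
  filter_upwards [ball_mem_nhds ξ₀ (half_pos hρ)] with ξ hξ' v
  by_cases hv : v = 0
  · rw [hv, map_zero, norm_zero, zero_pow hm.ne']
    positivity
  have hv0 : 0 < ‖v‖ := norm_pos_iff.2 hv
  have hin : ∀ t ∈ ball (0 : ℂ) (ρ / 2 / ‖v‖), ξ + t • v ∈ ball ξ₀ ρ := by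
    intro t ht
    rw [mem_ball_zero_iff, lt_div_iff₀ hv0] at ht
    rw [mem_ball, dist_eq_norm] at hξ' ⊢
    calc ‖ξ + t • v - ξ₀‖ = ‖(ξ - ξ₀) + t • v‖ := by congr 1; abel
      _ ≤ ‖ξ - ξ₀‖ + ‖t • v‖ := norm_add_le _ _
      _ = ‖ξ - ξ₀‖ + ‖t‖ * ‖v‖ := by rw [norm_smul]
      _ < ρ / 2 + ρ / 2 := by gcongr
      _ = ρ := by ring
  have hline : ∀ t : ℂ, HasDerivAt (fun t : ℂ => ξ + t • v) v t := by
    intro t
    have := ((hasDerivAt_id t).smul_const v).const_add ξ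
    simpa using this
  have hdf : DifferentiableOn ℂ (fun t : ℂ => D (ξ + t • v)) (ball 0 (ρ / 2 / ‖v‖)) := by
    intro t ht
    have h2 : DifferentiableAt ℂ D (ξ + t • v) :=
      hD.differentiableAt (hO.mem_nhds (hb _ (hin t ht)).1)
    exact (h2.comp t (hline t).differentiableAt).differentiableWithinAt
  have h3 := root_est (f := fun t : ℂ => D (ξ + t • v)) (r := ρ / 2 / ‖v‖) (M := M) (m := m)
    (by positivity) hm hdf (fun t ht => (hb _ (hin t ht)).2.le) (by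
      intro w hw hw0 k hk
      have h4 := h0 (ξ + w • v) (hb _ (hin w hw)).1 v hw0 k hk
      have h5 := congrFun (iteratedDeriv_comp_const_add (n := k)
        (f := fun t : ℂ => D (ξ + t • v)) (s := w)) 0
      simp only [add_zero] at h5
      rw [← h5]
      have h6 : (fun z : ℂ => D (ξ + (w + z) • v)) = fun t : ℂ => D (ξ + w • v + t • v) := by
        funext z
        rw [add_smul, add_assoc]
      rw [h6]
      exact h4)
  have h0b : (0 : ℂ) ∈ ball (0 : ℂ) (ρ / 2 / ‖v‖) := mem_ball_self (by positivity)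
  have h4 : deriv (fun t : ℂ => D (ξ + t • v)) 0 = fderiv ℂ D ξ v := by
    have h5 : HasFDerivAt D (fderiv ℂ D ξ) (ξ + (0 : ℂ) • v) := by
      have h6 := (hb _ (hin 0 h0b)).1
      rw [zero_smul, add_zero] at h6 ⊢
      exact (hD.differentiableAt (hO.mem_nhds h6)).hasFDerivAt
    exact (h5.comp_hasDerivAt (0 : ℂ) (hline 0)).deriv
  have h5 : D (ξ + (0 : ℂ) • v) = D ξ := by rw [zero_smul, add_zero]
  rw [h4] at h3
  simp only [h5] at h3
  refine h3.trans (le_of_eq ?_)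
  have h6 : 12 * (m : ℝ) / (ρ / 2 / ‖v‖) = 12 * m / (ρ / 2) * ‖v‖ := by field_simp
  rw [h6, mul_pow]
  ring

end

/-- the powers -/
theorem pow_mono_exp {x K : ℝ} (hx : 0 ≤ x) (hxK : x ≤ K) (hK : 1 ≤ K) {a b : ℕ} (hab : b ≤ a) :
    x ^ a ≤ K ^ a * x ^ b := by
  have hK0 : 0 ≤ K := zero_le_one.trans hK
  calc x ^ a = x ^ b * x ^ (a - b) := by rw [← pow_add, Nat.add_sub_cancel' hab]
    _ ≤ x ^ b * K ^ (a - b) := by gcongr
    _ ≤ x ^ b * K ^ a := by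
      gcongr
      exact Nat.sub_le _ _
    _ = K ^ a * x ^ b := mul_comm _ _

/-- from the exponent `m` to the exponent `m * q` -/
theorem pow_step {x y C K : ℝ} (hx : 0 ≤ x) (hC : 0 ≤ C) (hy : 0 ≤ y) (hyK : y ≤ K) (hK : 1 ≤ K)
    {m q s e : ℕ} {v : ℝ} (hv : 0 ≤ v) (h : x ^ m ≤ C * v ^ m * y ^ s) (he : e ≤ q * s) :
    x ^ (m * q) ≤ C ^ q * K ^ (q * s) * v ^ (m * q) * y ^ e := by
  have hK0 : 0 ≤ K := zero_le_one.trans hK
  calc x ^ (m * q) = (x ^ m) ^ q := pow_mul _ _ _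
    _ ≤ (C * v ^ m * y ^ s) ^ q := pow_le_pow_left₀ (by positivity) h q
    _ = C ^ q * v ^ (m * q) * y ^ (q * s) := by
      rw [mul_pow, mul_pow, ← pow_mul, ← pow_mul, mul_comm s q]
    _ ≤ C ^ q * v ^ (m * q) * (K ^ (q * s) * y ^ e) := by
      gcongr
      exact pow_mono_exp hy hyK hK he
    _ = _ := by ring

/-- a determinant one row of which is small -/
theorem det_est {p N : ℕ} (i₀ : Fin p) (A : Matrix (Fin p) (Fin p) ℂ) {C v : ℝ} (hC : 0 ≤ C)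
    (hv : 0 ≤ v) {w : Fin p → ℝ} (hw : ∀ j, 0 ≤ w j)
    (h1 : ∀ i j, i ≠ i₀ → ‖A i j‖ ^ N ≤ C * w j) (h2 : ∀ j, ‖A i₀ j‖ ^ N ≤ C * w j * v) :
    ‖A.det‖ ^ N ≤ (Fintype.card (Equiv.Perm (Fin p)) : ℝ) ^ N * C ^ p * v * ∏ j, w j := by
  classical
  have hterm : ∀ σ : Equiv.Perm (Fin p), ‖∏ j, A (σ j) j‖ ^ N ≤ C ^ p * v * ∏ j, w j := by
    intro σ
    rw [norm_prod, ← Finset.prod_pow]
    have h3 : ∀ j ∈ Finset.univ, ‖A (σ j) j‖ ^ N ≤ C * w j * (if j = σ.symm i₀ then v else 1) := by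
      intro j _
      by_cases hj : σ j = i₀
      · have hj' : j = σ.symm i₀ := by rw [← hj, Equiv.symm_apply_apply]
        rw [if_pos hj', hj]
        exact h2 j
      · have hj' : j ≠ σ.symm i₀ := by
          rintro rfl
          exact hj (Equiv.apply_symm_apply _ _)
        rw [if_neg hj', mul_one]
        exact h1 _ _ hj
    refine (Finset.prod_le_prod (fun j _ => by positivity) h3).trans (le_of_eq ?_)
    rw [Finset.prod_mul_distrib, Finset.prod_mul_distrib, Finset.prod_const, Finset.card_univ,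
      Fintype.card_fin, Finset.prod_ite_eq' Finset.univ (σ.symm i₀) (fun _ => v),
      if_pos (Finset.mem_univ _)]
    ring
  obtain ⟨σ₀, -, hσ₀⟩ := Finset.exists_max_image (Finset.univ : Finset (Equiv.Perm (Fin p)))
    (fun σ => ‖∏ j, A (σ j) j‖) ⟨1, Finset.mem_univ _⟩
  have h4 : ‖A.det‖ ≤ (Fintype.card (Equiv.Perm (Fin p)) : ℝ) * ‖∏ j, A (σ₀ j) j‖ := by
    rw [Matrix.det_apply']
    refine (norm_sum_le _ _).trans ?_
    have h5 : ∀ σ ∈ (Finset.univ : Finset (Equiv.Perm (Fin p))),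
        ‖((Equiv.Perm.sign σ : ℤ) : ℂ) * ∏ j, A (σ j) j‖ ≤ ‖∏ j, A (σ₀ j) j‖ := by
      intro σ hσ
      rw [norm_mul]
      have h6 : ‖((Equiv.Perm.sign σ : ℤ) : ℂ)‖ = 1 := by
        rcases Int.units_eq_one_or (Equiv.Perm.sign σ) with h | h <;> rw [h] <;> simp
      rw [h6, one_mul]
      exact hσ₀ σ hσ
    refine (Finset.sum_le_sum h5).trans (le_of_eq ?_)
    rw [Finset.sum_const, nsmul_eq_mul, Finset.card_univ]
  calc ‖A.det‖ ^ N ≤ ((Fintype.card (Equiv.Perm (Fin p)) : ℝ) * ‖∏ j, A (σ₀ j) j‖) ^ N :=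
        pow_le_pow_left₀ (norm_nonneg _) h4 N
    _ = (Fintype.card (Equiv.Perm (Fin p)) : ℝ) ^ N * ‖∏ j, A (σ₀ j) j‖ ^ N := mul_pow _ _ _
    _ ≤ (Fintype.card (Equiv.Perm (Fin p)) : ℝ) ^ N * (C ^ p * v * ∏ j, w j) := by
      gcongr
      exact hterm σ₀
    _ = _ := by ring

end Pool.Agent.OM
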