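import Pool.Agent.Lib_helper58.OM.Notions
import Pool.Agent.Lib_helper58.OM.D
import Pool.Agent.Lib_helper82.KZ.P.LS5
import Pool.Agent.Lib_helper83.Lang.C

/-! # Orbifold maps of surfaces to projective spaces (MP_45e720_ag): entire curves in projective
spaces -/

set_option autoImplicit false
set_option linter.unusedVariables false
set_option linter.unusedSectionVars false

open Filter Topology Metric Set

namespace Pool.Agent.OM

open Pool.Agent.OrbifoldMaps

/-! ## Choice of the exponents -/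

theorem exists_le_sum {r : ℕ} (w : Fin r → ℕ) {T : ℕ} (hT : T ≤ ∑ i, w i) :
    ∃ e : Fin r → ℕ, (∀ i, e i ≤ w i) ∧ ∑ i, e i = T := by
  classical
  obtain ⟨d, hd⟩ := Nat.exists_eq_add_of_le hT
  induction d generalizing w with
  | zero => exact ⟨w, fun i => le_rfl, by omega⟩
  | succ d ih =>
    obtain ⟨i, hi⟩ : ∃ i, 0 < w i := by
      by_contra hno
      push Not at hno
      have : ∑ i, w i = 0 := Finset.sum_eq_zero fun i _ => Nat.le_zero.1 (hno i)
      omega
    have h1 : ∑ j, Function.update w i (w i - 1) j + 1 = ∑ j, w j := by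
      rw [← Finset.add_sum_erase _ _ (Finset.mem_univ i),
        ← Finset.add_sum_erase _ w (Finset.mem_univ i), Function.update_self]
      have h2 : ∑ j ∈ Finset.univ.erase i, Function.update w i (w i - 1) j =
          ∑ j ∈ Finset.univ.erase i, w j :=
        Finset.sum_congr rfl fun j hj => Function.update_of_ne (Finset.ne_of_mem_erase hj) _ _
      rw [h2]
      omega
    obtain ⟨e, he1, he2⟩ := ih (Function.update w i (w i - 1)) (by omega) (by omega)
    refine ⟨e, fun j => ?_, he2⟩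
    rcases eq_or_ne j i with rfl | hj
    · have := he1 j
      rw [Function.update_self] at this
      omega
    · have := he1 j
      rwa [Function.update_of_ne hj] at this

/-- the exponents -/
structure Expo {q : ℕ} (n : ℕ) (m : Fin q → ℕ) (N : ℕ) (e k : Fin q → ℕ) : Prop where
  N_pos : 0 < N
  N_eq : ∀ i, N = m i * k i
  e_le : ∀ i, e i ≤ k i * (m i - n)
  sum : ∑ i, e i = (n + 1) * N

theorem exists_exponents {q n : ℕ} {m : Fin q → ℕ} (hm : ∀ i, 0 < m i)
    (h2 : (n + 1 : ℚ) ≤ ∑ i, max 0 (1 - n / (m i : ℚ))) :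
    ∃ (N : ℕ) (e k : Fin q → ℕ), Expo n m N e k := by
  set N := ∏ i, m i with hN
  have hN0 : 0 < N := Finset.prod_pos fun i _ => hm i
  have hdvd : ∀ i, m i ∣ N := fun i => Finset.dvd_prod_of_mem _ (Finset.mem_univ i)
  have hw : ∀ i, ((N / m i * (m i - n) : ℕ) : ℚ) = N * max 0 (1 - n / (m i : ℚ)) := by
    intro i
    have h3 : (0 : ℚ) < (m i : ℚ) := Nat.cast_pos.2 (hm i)
    rw [Nat.cast_mul, Nat.cast_div (hdvd i) h3.ne']
    rcases le_or_gt n (m i) with h4 | h4
    · have h5 : (0 : ℚ) ≤ 1 - n / (m i : ℚ) := by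
        rw [sub_nonneg, div_le_one h3]
        exact_mod_cast h4
      rw [max_eq_right h5, Nat.cast_sub h4]
      field_simp
    · have h5 : 1 - n / (m i : ℚ) ≤ (0 : ℚ) := by
        rw [sub_nonpos, one_le_div h3]
        exact_mod_cast h4.le
      rw [max_eq_left h5, Nat.sub_eq_zero_of_le h4.le]
      simp
  have hsum : (n + 1) * N ≤ ∑ i, N / m i * (m i - n) := by
    have h4 : ((n + 1) * N : ℚ) ≤ ((∑ i, N / m i * (m i - n) : ℕ) : ℚ) := by
      rw [Nat.cast_sum, Finset.sum_congr rfl fun i _ => hw i, ← Finset.mul_sum]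
      have h5 : (0 : ℚ) ≤ N := Nat.cast_nonneg _
      nlinarith
    exact_mod_cast h4
  obtain ⟨e, he1, he2⟩ := exists_le_sum _ hsum
  exact ⟨N, e, fun i => N / m i, hN0, fun i => (Nat.mul_div_cancel' (hdvd i)).symm, he1, he2⟩

/-! ## Lifts of entire curves -/

section

variable {n : ℕ}

/-- `G` is a lift of `f` near `z` -/
def CL (f : ℂ → Projectivization ℂ (Fin (n + 1) → ℂ)) (G : ℂ → Fin (n + 1) → ℂ) (z : ℂ) : Prop :=
  AnalyticAt ℂ G z ∧ ∀ᶠ w in 𝓝 z, ∃ h : G w ≠ 0, f w = Projectivization.mk ℂ (G w) h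

theorem cl_near {f : ℂ → Projectivization ℂ (Fin (n + 1) → ℂ)} {G : ℂ → Fin (n + 1) → ℂ} {z : ℂ}
    (h : CL f G z) : ∀ᶠ w in 𝓝 z, CL f G w :=
  (h.1.eventually_analyticAt).and (eventually_eventually_nhds.2 h.2)

/-- two lifts differ by a nowhere vanishing function -/
theorem cl_unit {f : ℂ → Projectivization ℂ (Fin (n + 1) → ℂ)} {G G' : ℂ → Fin (n + 1) → ℂ} {z : ℂ}
    (h : CL f G z) (h' : CL f G' z) :
    ∃ l : ℂ → ℂ, AnalyticAt ℂ l z ∧ l z ≠ 0 ∧ G' =ᶠ[𝓝 z] fun w => l w • G w := by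
  obtain ⟨hG0, hfz⟩ := h.2.self_of_nhds
  obtain ⟨hG0', hfz'⟩ := h'.2.self_of_nhds
  obtain ⟨k, hk⟩ : ∃ k, G z k ≠ 0 := by
    by_contra hno
    push Not at hno
    exact hG0 (funext hno)
  have hGk : AnalyticAt ℂ (fun w => G w k) z := analyticAt_pi_iff.1 h.1 k
  have hGk' : AnalyticAt ℂ (fun w => G' w k) z := analyticAt_pi_iff.1 h'.1 k
  have hne : ∀ᶠ w in 𝓝 z, G w k ≠ 0 := hGk.continuousAt.eventually_ne hk
  have heq : G' =ᶠ[𝓝 z] fun w => (G' w k / G w k) • G w := by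
    filter_upwards [h.2, h'.2, hne] with w ⟨h1, h2⟩ ⟨h3, h4⟩ h5
    rw [h2, Projectivization.mk_eq_mk_iff'] at h4
    obtain ⟨c, hc⟩ := h4
    have hcne : c ≠ 0 := by
      rintro rfl
      rw [zero_smul] at hc
      exact h1 hc.symm
    have h6 : G w k = c * G' w k := by rw [← hc]; rfl
    funext l
    have h7 : G w l = c * G' w l := by rw [← hc]; rfl
    have h8 : G' w k ≠ 0 := by
      intro h9
      rw [h9, mul_zero] at h6
      exact h5 h6
    simp only [Pi.smul_apply, smul_eq_mul]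
    rw [h6, h7]
    field_simp
  refine ⟨fun w => G' w k / G w k, hGk'.div hGk hk, ?_, heq⟩
  intro h0
  apply hG0'
  have := heq.self_of_nhds
  simp only at this h0
  rw [this, h0, zero_smul]

theorem lin_smul (a v : Fin (n + 1) → ℂ) (c : ℂ) : linForm a (c • v) = c * linForm a v := by
  unfold linForm
  rw [Finset.mul_sum]
  exact Finset.sum_congr rfl fun k _ => by
    simp only [Pi.smul_apply, smul_eq_mul]
    ring

theorem lin_an (a : Fin (n + 1) → ℂ) {G : ℂ → Fin (n + 1) → ℂ} {z : ℂ} (h : AnalyticAt ℂ G z) :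
    AnalyticAt ℂ (fun w => linForm a (G w)) z := by
  unfold linForm
  exact Finset.analyticAt_fun_sum _ fun k _ => analyticAt_const.mul (analyticAt_pi_iff.1 h k)

/-- the Wronskian of a linear transform -/
theorem wr_lin {A : Fin (n + 1) → Fin (n + 1) → ℂ} {G : ℂ → Fin (n + 1) → ℂ} {z : ℂ}
    (h : AnalyticAt ℂ G z) :
    LangFC.wr (fun j w => linForm (A j) (G w)) z =
      (Matrix.of A).det * LangFC.wr (fun j w => G w j) z := by
  have hG : ∀ k, AnalyticAt ℂ (fun w => G w k) z := fun k => analyticAt_pi_iff.1 h k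
  unfold LangFC.wr
  have key : (Matrix.of fun i j : Fin (n + 1) =>
      iteratedDeriv (i : ℕ) (fun w => linForm (A j) (G w)) z) =
      (Matrix.of fun i j : Fin (n + 1) => iteratedDeriv (i : ℕ) (fun w => G w j) z) *
        (Matrix.of A).transpose := by
    ext i j
    rw [Matrix.mul_apply]
    simp only [Matrix.of_apply, Matrix.transpose_apply]
    unfold linForm
    have h1 : ∀ k ∈ (Finset.univ : Finset (Fin (n + 1))),
        ContDiffAt ℂ (i : ℕ) (fun w => A j k * G w k) z := fun k _ =>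
      contDiffAt_const.mul (hG k).contDiffAt
    rw [iteratedDeriv_fun_sum h1]
    refine Finset.sum_congr rfl fun k _ => ?_
    rw [iteratedDeriv_const_mul_field]
    ring
  rw [key, Matrix.det_mul, Matrix.det_transpose, mul_comm]

variable {q : ℕ} (a : Fin q → Fin (n + 1) → ℂ) (N : ℕ) (e : Fin q → ℕ)

/-- the meromorphic function -/
noncomputable def qq (G : ℂ → Fin (n + 1) → ℂ) (z : ℂ) : ℂ :=
  LangFC.wr (fun j w => G w j) z ^ N / ∏ i, linForm (a i) (G z) ^ e i

theorem qq_indep (hs : ∑ i, e i = (n + 1) * N)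
    {f : ℂ → Projectivization ℂ (Fin (n + 1) → ℂ)} {G G' : ℂ → Fin (n + 1) → ℂ} {z : ℂ}
    (h : CL f G z) (h' : CL f G' z) : qq a N e G' z = qq a N e G z := by
  obtain ⟨l, hl, hl0, hlG⟩ := cl_unit h h'
  have hG : ∀ k, AnalyticAt ℂ (fun w => G w k) z := fun k => analyticAt_pi_iff.1 h.1 k
  have h2 : G' z = l z • G z := hlG.self_of_nhds
  have h3 : LangFC.wr (fun j w => G' w j) z = l z ^ (n + 1) * LangFC.wr (fun j w => G w j) z := by
    rw [← LangFC.wr_mul_at l (fun j w => G w j) hl hG]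
    refine LangFC.wr_congr_at fun j => ?_
    filter_upwards [hlG] with w hw
    rw [hw]
    simp only [Pi.smul_apply, smul_eq_mul, Pi.mul_apply]
    ring
  have h4 : ∀ i, linForm (a i) (G' z) ^ e i = l z ^ e i * linForm (a i) (G z) ^ e i := by
    intro i
    rw [h2, lin_smul, mul_pow]
  unfold qq
  rw [h3, Finset.prod_congr rfl fun i _ => h4 i, Finset.prod_mul_distrib,
    Finset.prod_pow_eq_pow_sum, hs, mul_pow, ← pow_mul]
  exact mul_div_mul_left _ _ (pow_ne_zero _ hl0)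

theorem qq_mero {G : ℂ → Fin (n + 1) → ℂ} {z : ℂ} (h : AnalyticAt ℂ G z) :
    MeromorphicAt (qq a N e G) z := by
  have h1 : AnalyticAt ℂ (fun w => ∏ i, linForm (a i) (G w) ^ e i) z :=
    Finset.analyticAt_fun_prod _ fun i _ => (lin_an (a i) h).pow _
  have h2 : MeromorphicAt (LangFC.wr fun j w => G w j) z :=
    LangFC.wr_mero_at _ fun j => (analyticAt_pi_iff.1 h j).meromorphicAt
  exact (h2.pow N).div h1.meromorphicAt

/-- a constant function -/
theorem qq_const {f : ℂ → Projectivization ℂ (Fin (n + 1) → ℂ)} (hf : ∀ z, ∃ G, CL f G z)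
    (hs : ∑ i, e i = (n + 1) * N) {B : ℝ} (hB : ∀ z G, CL f G z → ‖qq a N e G z‖ ≤ B) :
    ∃ c : ℝ, 0 ≤ c ∧ ∀ z₀, ∀ᶠ z in 𝓝[≠] z₀, ∀ G, CL f G z → ‖qq a N e G z‖ = c := by
  choose G hG using hf
  obtain ⟨c, hc⟩ := KZ.ls_const (u := fun z => ‖qq a N e (G z) z‖) (Z := ∅) (B := B)
    (fun z _ => hB z _ (hG z)) (fun z₀ => by
      refine ⟨qq a N e (G z₀), qq_mero a N e (hG z₀).1, ?_⟩
      refine eventually_nhdsWithin_of_eventually_nhds ?_
      filter_upwards [cl_near (hG z₀)] with z hz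
      exact ⟨notMem_empty _, by rw [qq_indep a N e hs (hG z) hz]⟩)
  have h2 : ∀ z₀, ∀ᶠ z in 𝓝[≠] z₀, ∀ G, CL f G z → ‖qq a N e G z‖ = c := by
    intro z₀
    filter_upwards [hc z₀] with z hz G' hG'
    rw [← hz, qq_indep a N e hs (hG z) hG']
  refine ⟨c, ?_, h2⟩
  obtain ⟨z, hz⟩ := (hc 0).exists
  rw [← hz]
  exact norm_nonneg _

end

/-- functions with a product which vanishes -/
theorem zero_of_prod {ι : Type} (s : Finset ι) {F : ι → ℂ → ℂ} {z₀ : ℂ}
    (hF : ∀ i ∈ s, AnalyticAt ℂ (F i) z₀) (h : ∀ᶠ z in 𝓝[≠] z₀, ∏ i ∈ s, F i z = 0) :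
    ∃ i ∈ s, ∀ᶠ z in 𝓝 z₀, F i z = 0 := by
  by_contra hno
  push Not at hno
  have h1 : ∀ i ∈ s, ∀ᶠ z in 𝓝[≠] z₀, F i z ≠ 0 := by
    intro i hi
    rcases (hF i hi).eventually_eq_zero_or_eventually_ne_zero with h2 | h2
    · exact absurd h2 (not_eventually.2 (hno i hi))
    · exact h2
  have h2 : ∀ᶠ z in 𝓝[≠] z₀, ∀ i ∈ s, F i z ≠ 0 := (Finset.eventually_all s).2 h1
  obtain ⟨z, hz1, hz2⟩ := (h.and h2).exists
  exact Finset.prod_ne_zero_iff.2 hz2 hz1

/-- if the Wronskian vanishes, then the curve is contained in a hyperplane -/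
theorem plane_of_wr {n : ℕ} {G : ℂ → Fin (n + 1) → ℂ} {z₀ : ℂ} (hG : AnalyticAt ℂ G z₀)
    (hw : ∀ᶠ z in 𝓝[≠] z₀, LangFC.wr (fun j w => G w j) z = 0) :
    ∃ b : Fin (n + 1) → ℂ, b ≠ 0 ∧ ∀ᶠ z in 𝓝 z₀, linForm b (G z) = 0 := by
  by_contra hno
  push Not at hno
  have h1 := LangFC.wr_order_ne_top_at (fun j w => G w j) (a := z₀)
    (fun j => (analyticAt_pi_iff.1 hG j).meromorphicAt) (fun c hc => by
      by_contra hc0
      have h2 := hno c hc0
      rcases (lin_an c hG).eventually_eq_zero_or_eventually_ne_zero with h3 | h3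
      · exact absurd h3 (not_eventually.2 h2)
      · obtain ⟨z, hz1, hz2⟩ := (hc.and h3).exists
        exact hz2 hz1)
  apply h1
  rw [meromorphicOrderAt_eq_top_iff]
  exact hw

end Pool.Agent.OM
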