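import Pool.Agent.Lib_helper58.OM.B
import Pool.Agent.Lib_helper58.OM.E

/-! # Orbifold maps of surfaces to projective spaces (MP_45e720_ag): the uniform estimate -/

set_option autoImplicit false
set_option linter.unusedVariables false
set_option linter.unusedSectionVars false

open Filter Topology Metric Set
open scoped Manifold ContDiff

namespace Pool.Agent.OM

open Pool.Agent.BR Pool.Agent.MBS Pool.Agent.SL Pool.Agent.IS Pool.Agent.KZ
open Pool.Agent.OrbifoldMaps

section pure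

variable {n q : ℕ}

/-- most of the hyperplanes do not contain a given point -/
theorem choose_planes {a : Fin q → Fin (n + 1) → ℂ}
    (ha : ∀ s : Fin (n + 1) → Fin q, Function.Injective s → LinearIndependent ℂ fun k => a (s k))
    (hq : n + 1 ≤ q) {v : Fin (n + 1) → ℂ} (hv : v ≠ 0) :
    ∃ t : Fin (n + 1) → Fin q, Function.Injective t ∧ ∀ i ∉ range t, linForm (a i) v ≠ 0 := by
  classical
  set S : Finset (Fin q) := Finset.univ.filter fun i => linForm (a i) v = 0 with hS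
  have hcard : S.card ≤ n + 1 := by
    by_contra hlt
    push Not at hlt
    obtain ⟨u, hu, hu2⟩ := Finset.exists_subset_card_eq (s := S) (n := n + 1) hlt.le
    have h1 := ha (u.orderEmbOfFin hu2) (u.orderEmbOfFin hu2).injective
    have h2 : IsUnit (Matrix.of fun k => a (u.orderEmbOfFin hu2 k)) :=
      Matrix.linearIndependent_rows_iff_isUnit.1 h1
    have h3 : (Matrix.of fun k => a (u.orderEmbOfFin hu2 k)).det ≠ 0 :=
      ((Matrix.isUnit_iff_isUnit_det _).1 h2).ne_zero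
    refine hv (Matrix.eq_zero_of_mulVec_eq_zero h3 ?_)
    funext k
    have h4 : u.orderEmbOfFin hu2 k ∈ S := hu (Finset.orderEmbOfFin_mem u hu2 k)
    exact (Finset.mem_filter.1 h4).2
  obtain ⟨u, hu1, -, hu2⟩ := Finset.exists_subsuperset_card_eq (Finset.subset_univ S) hcard
    (by rwa [Finset.card_univ, Fintype.card_fin])
  refine ⟨u.orderEmbOfFin hu2, (u.orderEmbOfFin hu2).injective, fun i hi h => hi ?_⟩
  rw [Finset.range_orderEmbOfFin]
  exact hu1 (Finset.mem_filter.2 ⟨Finset.mem_univ _, h⟩)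

/-- the bound for the higher derivatives -/
theorem high_bound {m N e k : ℕ} (hm : 0 < m) (hN : N = m * k) (he : e ≤ k * (m - n))
    {r K : ℝ} (hr : 0 < r) (hK : 1 ≤ K) {l : ℕ} (hl : l ≤ n) :
    ∃ C : ℝ, 0 ≤ C ∧ ∀ f : ℂ → ℂ, DifferentiableOn ℂ f (ball 0 r) →
      (∀ z ∈ ball (0 : ℂ) r, ‖f z‖ ≤ K) →
      (∀ w ∈ ball (0 : ℂ) r, f w = 0 → ∀ k < m, iteratedDeriv k f w = 0) →
      ‖iteratedDeriv l f 0‖ ^ N ≤ C * ‖f 0‖ ^ e := by
  have hK0 : 0 ≤ K := zero_le_one.trans hK
  subst hN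
  rcases le_or_gt l m with hlm | hlm
  · obtain ⟨C, hC, h1⟩ := root_high (M := K) hr hm hlm
    refine ⟨C ^ k * K ^ (k * (m - l)), by positivity, fun f hf hb h0 => ?_⟩
    have h2 := h1 f hf hb h0
    have h3 := pow_step (x := ‖iteratedDeriv l f 0‖) (y := ‖f 0‖) (C := C) (K := K) (m := m) (q := k)
      (s := m - l) (e := e) (v := 1) (norm_nonneg _) hC (norm_nonneg _) (hb 0 (mem_ball_self hr)) hK
      zero_le_one (by rw [one_pow, mul_one]; exact h2)
      (he.trans (Nat.mul_le_mul_left _ (by omega)))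
    rw [one_pow, mul_one] at h3
    exact h3
  · have h4 : m - n = 0 := by omega
    rw [h4, mul_zero] at he
    obtain rfl : e = 0 := by omega
    refine ⟨(l.factorial * K / (r / 2) ^ l) ^ (m * k), by positivity, fun f hf hb h0 => ?_⟩
    rw [pow_zero, mul_one]
    exact pow_le_pow_left₀ (norm_nonneg _) (cauchy_est hr hf hb l) _

/-- the estimate for the Wronskian -/
theorem wr_est (hn : 0 < n) {a : Fin q → Fin (n + 1) → ℂ} {N : ℕ} {e : Fin q → ℕ}
    {t : Fin (n + 1) → Fin q} (htinj : Function.Injective t)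
    (ht : LinearIndependent ℂ fun k => a (t k)) {C c₁ : ℝ} (hC : 0 ≤ C) (hc₁ : 0 < c₁) :
    ∃ B : ℝ, 0 ≤ B ∧ ∀ (G : ℂ → Fin (n + 1) → ℂ) (z : ℂ) (v : ℝ), AnalyticAt ℂ G z → 0 ≤ v →
      (∀ i, ∀ l ≤ n, ‖iteratedDeriv l (fun w => linForm (a i) (G w)) z‖ ^ N ≤
        C * ‖linForm (a i) (G z)‖ ^ e i) →
      (∀ i, ‖deriv (fun w => linForm (a i) (G w)) z‖ ^ N ≤
        C * ‖linForm (a i) (G z)‖ ^ e i * v) →
      c₁ ≤ ∏ i ∈ Finset.univ.filter (fun i => i ∉ range t), ‖linForm (a i) (G z)‖ ^ e i →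
      ‖qq a N e G z‖ ≤ B * v := by
  classical
  have h2 : IsUnit (Matrix.of fun k => a (t k)) := Matrix.linearIndependent_rows_iff_isUnit.1 ht
  have h3 : (Matrix.of fun k => a (t k)).det ≠ 0 :=
    ((Matrix.isUnit_iff_isUnit_det _).1 h2).ne_zero
  set δ : ℝ := ‖(Matrix.of fun k => a (t k)).det‖ with hδ
  have hδ0 : 0 < δ := norm_pos_iff.2 h3
  set P : ℝ := (Fintype.card (Equiv.Perm (Fin (n + 1))) : ℝ) ^ N * C ^ (n + 1) with hP
  have hP0 : 0 ≤ P := by positivity
  refine ⟨P / (δ ^ N * c₁), by positivity, fun G z v hG hv hA hB hc => ?_⟩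
  set w : Fin (n + 1) → ℝ := fun j => ‖linForm (a (t j)) (G z)‖ ^ e (t j) with hw
  have hw0 : ∀ j, 0 ≤ w j := fun j => by positivity
  have h4 := det_est (p := n + 1) (N := N) ⟨1, by omega⟩
    (Matrix.of fun i j : Fin (n + 1) =>
      iteratedDeriv (i : ℕ) (fun w => linForm (a (t j)) (G w)) z) (C := C) (v := v) (w := w) hC hv
    hw0 (fun i j _ => hA (t j) i (by omega)) (fun j => by
      have := hB (t j)
      simpa only [Matrix.of_apply, iteratedDeriv_one] using this)
  have h5 : (Matrix.of fun i j : Fin (n + 1) =>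
      iteratedDeriv (i : ℕ) (fun w => linForm (a (t j)) (G w)) z).det =
      (Matrix.of fun k => a (t k)).det * LangFC.wr (fun j w => G w j) z :=
    wr_lin (A := fun k => a (t k)) hG
  rw [h5, norm_mul, mul_pow] at h4
  set Q : ℝ := ∏ i, ‖linForm (a i) (G z)‖ ^ e i with hQ
  have hQ0 : 0 ≤ Q := Finset.prod_nonneg fun i _ => by positivity
  have h6 : Q = (∏ j, w j) *
      ∏ i ∈ Finset.univ.filter (fun i => i ∉ range t), ‖linForm (a i) (G z)‖ ^ e i := by
    rw [hQ, ← Finset.prod_filter_mul_prod_filter_not Finset.univ (fun i => i ∈ range t)]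
    congr 1
    have h7 : Finset.univ.filter (fun i => i ∈ range t) = Finset.univ.image t := by
      ext i
      simp
    rw [h7, Finset.prod_image fun x _ y _ h => htinj h]
  have h8 : (∏ j, w j) * c₁ ≤ Q := by
    rw [h6]
    gcongr
  have h9 : ‖qq a N e G z‖ = ‖LangFC.wr (fun j w => G w j) z‖ ^ N / Q := by
    unfold qq
    rw [norm_div, norm_pow, norm_prod]
    simp only [norm_pow]
    rfl
  rw [h9]
  rcases hQ0.eq_or_lt with h10 | h10
  · rw [← h10, div_zero]
    positivity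
  · rw [div_le_iff₀ h10]
    have h11 : ‖LangFC.wr (fun j w => G w j) z‖ ^ N ≤ P / δ ^ N * v * ∏ j, w j := by
      rw [div_mul_eq_mul_div, div_mul_eq_mul_div, le_div_iff₀ (by positivity), mul_comm]
      exact h4
    refine h11.trans ?_
    calc P / δ ^ N * v * ∏ j, w j = P / (δ ^ N * c₁) * v * ((∏ j, w j) * c₁) := by
          field_simp
      _ ≤ P / (δ ^ N * c₁) * v * Q := by gcongr

end pure

section top

variable {E X : Type} [NormedAddCommGroup E] [NormedSpace ℂ E] [FiniteDimensional ℂ E]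
  [TopologicalSpace X] [ChartedSpace E X] [IsManifold 𝓘(ℂ, E) ω X] {n q : ℕ}

theorem lift_near {φ : X → Projectivization ℂ (Fin (n + 1) → ℂ)} {g : X → Fin (n + 1) → ℂ} {x : X}
    (h : IsLift E φ g x) : ∀ᶠ y in 𝓝 x, IsLift E φ g y :=
  (eventually_eventually_nhds.2 h.1).and (eventually_eventually_nhds.2 h.2)

/-- lifts along curves -/
theorem cl_curve {φ : X → Projectivization ℂ (Fin (n + 1) → ℂ)} {g : X → Fin (n + 1) → ℂ}
    {h : ℂ → X} {z : ℂ} (hh : MDifferentiable 𝓘(ℂ, ℂ) 𝓘(ℂ, E) h) (hg : IsLift E φ g (h z)) :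
    CL (fun w => φ (h w)) (fun w => g (h w)) z := by
  have hc : ContinuousAt h z := (hh z).continuousAt
  constructor
  · rw [Complex.analyticAt_iff_eventually_differentiableAt]
    filter_upwards [hc.eventually hg.1] with w hw
    have h1 : MDifferentiableAt 𝓘(ℂ, ℂ) 𝓘(ℂ, Fin (n + 1) → ℂ) (fun w => g (h w)) w :=
      hw.comp w (hh w)
    exact h1.differentiableAt
  · exact hc.eventually hg.2

theorem lin_cont (a : Fin (n + 1) → ℂ) : Continuous (linForm a) := by
  unfold linForm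
  fun_prop

theorem lin_diff (a : Fin (n + 1) → ℂ) : Differentiable ℂ (linForm a) := by
  unfold linForm
  fun_prop

/-- the estimate near a point of `X` -/
theorem est_point {φ : X → Projectivization ℂ (Fin (n + 1) → ℂ)} (hφ : IsHolomorphic E φ)
    (hn : 0 < n) {a : Fin q → Fin (n + 1) → ℂ}
    (ha : ∀ s : Fin (n + 1) → Fin q, Function.Injective s → LinearIndependent ℂ fun k => a (s k))
    (hq : n + 1 ≤ q) {m : Fin q → ℕ} (hm : ∀ i, 0 < m i)
    (hF : ∀ i, HyperplaneMultiplicity E φ (a i) (m i)) {N : ℕ} {e k : Fin q → ℕ}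
    (hE : Expo n m N e k) (y p : X) (hp : p ∈ (chartAt E y).source) :
    ∃ U ∈ 𝓝 p, ∀ r : ℝ, 0 < r → ∃ C : ℝ, 0 ≤ C ∧ ∀ᶠ x in 𝓝 p, ∀ (h : ℂ → X) (z : ℂ),
      MDifferentiable 𝓘(ℂ, ℂ) 𝓘(ℂ, E) h → h z = x → (∀ w ∈ ball z r, h w ∈ U) →
      ∀ G, CL (fun w => φ (h w)) G z →
        ‖qq a N e G z‖ ≤ C * ‖deriv (fun w => chartAt E y (h w)) z‖ ^ N := by
  classical
  have : CompleteSpace E := FiniteDimensional.complete ℂ E
  obtain ⟨g, hg⟩ := hφ p
  have hgc : ContinuousAt g p := hg.1.self_of_nhds.continuousAt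
  have hgp : g p ≠ 0 := (hg.2.self_of_nhds).choose
  have hlc : ∀ i, ContinuousAt (fun x => linForm (a i) (g x)) p := fun i =>
    (lin_cont (a i)).continuousAt.comp hgc
  -- a bound for the linear forms
  obtain ⟨K, hK1, hK⟩ : ∃ K : ℝ, 1 ≤ K ∧ ∀ i, ‖linForm (a i) (g p)‖ < K := by
    obtain ⟨B, hB⟩ := (Set.finite_range fun i => ‖linForm (a i) (g p)‖).bddAbove
    refine ⟨max B 0 + 1, by linarith [le_max_right B 0], fun i => ?_⟩
    have := hB ⟨i, rfl⟩
    simp only at this
    linarith [le_max_left B 0]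
  have hK0 : 0 ≤ K := zero_le_one.trans hK1
  have hUK : ∀ᶠ x in 𝓝 p, ∀ i, ‖linForm (a i) (g x)‖ < K :=
    eventually_all.2 fun i => (hlc i).norm.eventually_lt_const (hK i)
  refine ⟨{x | IsLift E φ g x ∧ ∀ i, ‖linForm (a i) (g x)‖ < K}, (lift_near hg).and hUK,
    fun r hr => ?_⟩
  -- the higher derivatives
  have hhigh : ∀ i, ∃ C : ℝ, 0 ≤ C ∧ ∀ l ≤ n, ∀ f : ℂ → ℂ, DifferentiableOn ℂ f (ball 0 r) →
      (∀ z ∈ ball (0 : ℂ) r, ‖f z‖ ≤ K) →
      (∀ w ∈ ball (0 : ℂ) r, f w = 0 → ∀ k < m i, iteratedDeriv k f w = 0) →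
      ‖iteratedDeriv l f 0‖ ^ N ≤ C * ‖f 0‖ ^ e i := by
    intro i
    have h1 : ∀ l : Fin (n + 1), ∃ C : ℝ, 0 ≤ C ∧ ∀ f : ℂ → ℂ, DifferentiableOn ℂ f (ball 0 r) →
      (∀ z ∈ ball (0 : ℂ) r, ‖f z‖ ≤ K) →
      (∀ w ∈ ball (0 : ℂ) r, f w = 0 → ∀ k < m i, iteratedDeriv k f w = 0) →
      ‖iteratedDeriv (l : ℕ) f 0‖ ^ N ≤ C * ‖f 0‖ ^ e i := fun l =>
        high_bound (hm i) (hE.N_eq i) (hE.e_le i) hr hK1 (Nat.lt_succ_iff.1 l.2)
    choose C hC h2 using h1
    refine ⟨∑ l, C l, Finset.sum_nonneg fun l _ => hC l, fun l hl f hf hb h0 => ?_⟩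
    refine (h2 ⟨l, Nat.lt_succ_iff.2 hl⟩ f hf hb h0).trans ?_
    gcongr
    exact Finset.single_le_sum (fun l _ => hC l) (Finset.mem_univ _)
  choose C₁ hC₁ hhigh using hhigh
  -- the first derivative
  set c := chartAt E y with hc
  have hopen : IsOpen {x : X | IsLift E φ g x} := by
    rw [isOpen_iff_mem_nhds]
    intro x hx
    exact lift_near hx
  set O : Set E := c.target ∩ c.symm ⁻¹' {x : X | IsLift E φ g x} with hO
  have hOo : IsOpen O := c.continuousOn_symm.isOpen_inter_preimage c.open_target hopen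
  have hmd : ∀ ξ ∈ c.target, MDifferentiableAt 𝓘(ℂ, E) 𝓘(ℂ, E) c.symm ξ := fun ξ hξ =>
    mdifferentiableAt_atlas_symm (chart_mem_atlas _ _) hξ
  have hG : ∀ i, DifferentiableOn ℂ (fun ξ => linForm (a i) (g (c.symm ξ))) O := by
    rintro i ξ ⟨h1, h2⟩
    have h3 : MDifferentiableAt 𝓘(ℂ, E) 𝓘(ℂ, Fin (n + 1) → ℂ) g (c.symm ξ) := h2.1.self_of_nhds
    have h4 := (h3.comp ξ (hmd ξ h1)).differentiableAt
    exact ((lin_diff (a i) _).comp ξ h4).differentiableWithinAt
  have hpO : c p ∈ O := by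
    refine ⟨c.map_source hp, ?_⟩
    show IsLift E φ g (c.symm (c p))
    rw [c.left_inv hp]
    exact hg
  have hline : ∀ (i : Fin q) (ξ : E), ξ ∈ O → ∀ v : E, linForm (a i) (g (c.symm ξ)) = 0 →
      ∀ k < m i, iteratedDeriv k (fun t : ℂ => linForm (a i) (g (c.symm (ξ + t • v)))) 0 = 0 := by
    intro i ξ hξ v hd k hk
    have hline : Continuous (fun t : ℂ => ξ + t • v) := by fun_prop
    have h00 : ξ + (0 : ℂ) • v = ξ := by rw [zero_smul, add_zero]
    have h1 : ∀ᶠ t in 𝓝 (0 : ℂ), MDifferentiableAt 𝓘(ℂ, ℂ) 𝓘(ℂ, E)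
        (fun t : ℂ => c.symm (ξ + t • v)) t := by
      have h2 : ∀ᶠ t in 𝓝 (0 : ℂ), ξ + t • v ∈ c.target := by
        refine hline.continuousAt.eventually_mem (c.open_target.mem_nhds ?_)
        rw [h00]
        exact hξ.1
      filter_upwards [h2] with t ht
      have h3 : DifferentiableAt ℂ (fun t : ℂ => ξ + t • v) t := by fun_prop
      exact (hmd _ ht).comp t h3.mdifferentiableAt
    have h2 := hF i (fun t : ℂ => c.symm (ξ + t • v)) g h1 (by
      show IsLift E φ g (c.symm (ξ + (0 : ℂ) • v))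
      rw [h00]
      exact hξ.2) (by
      show linForm (a i) (g (c.symm (ξ + (0 : ℂ) • v))) = 0
      rw [h00]
      exact hd) k hk
    exact h2
  have hfirst : ∀ i, ∃ C : ℝ, 0 ≤ C ∧ ∀ᶠ ξ in 𝓝 (c p), ∀ v : E,
      ‖fderiv ℂ (fun ξ => linForm (a i) (g (c.symm ξ))) ξ v‖ ^ m i ≤
        C * ‖v‖ ^ m i * ‖linForm (a i) (g (c.symm ξ))‖ ^ (m i - 1) := fun i =>
    loc_single hOo (hG i) hpO (hm i) (hline i)
  choose C₂ hC₂ hfirst using hfirst
  have hfirst' : ∀ᶠ ξ in 𝓝 (c p), ∀ i, ∀ v : E,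
      ‖fderiv ℂ (fun ξ => linForm (a i) (g (c.symm ξ))) ξ v‖ ^ m i ≤
        C₂ i * ‖v‖ ^ m i * ‖linForm (a i) (g (c.symm ξ))‖ ^ (m i - 1) := eventually_all.2 hfirst
  -- the hyperplanes which do not contain the point
  obtain ⟨t, htinj, ht⟩ := choose_planes ha hq hgp
  set P : X → ℝ := fun x => ∏ i ∈ Finset.univ.filter (fun i => i ∉ range t),
    ‖linForm (a i) (g x)‖ ^ e i with hP
  have hPc : ContinuousAt P p := tendsto_finsetProd _ fun i _ => ((hlc i).norm.pow _)
  have hP0 : 0 < P p := by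
    refine Finset.prod_pos fun i hi => ?_
    have := norm_pos_iff.2 (ht i (Finset.mem_filter.1 hi).2)
    positivity
  -- the constant
  set C₃ : ℝ := ∑ i, C₁ i + ∑ i, C₂ i ^ k i * K ^ (k i * (m i - 1)) with hC₃
  have hC₃1 : ∀ i, C₁ i ≤ C₃ := fun i => by
    have h1 : C₁ i ≤ ∑ i, C₁ i := Finset.single_le_sum (fun l _ => hC₁ l) (Finset.mem_univ _)
    have h2 : 0 ≤ ∑ i, C₂ i ^ k i * K ^ (k i * (m i - 1)) := Finset.sum_nonneg fun i _ => by
      have := hC₂ i
      positivity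
    linarith
  have hC₃2 : ∀ i, C₂ i ^ k i * K ^ (k i * (m i - 1)) ≤ C₃ := fun i => by
    have h1 : C₂ i ^ k i * K ^ (k i * (m i - 1)) ≤ ∑ i, C₂ i ^ k i * K ^ (k i * (m i - 1)) :=
      Finset.single_le_sum (f := fun i => C₂ i ^ k i * K ^ (k i * (m i - 1))) (fun l _ => by
        have := hC₂ l
        positivity) (Finset.mem_univ _)
    have h2 : 0 ≤ ∑ i, C₁ i := Finset.sum_nonneg fun i _ => hC₁ i
    linarith
  have hC₃0 : 0 ≤ C₃ := by
    have h1 : 0 ≤ ∑ i, C₁ i := Finset.sum_nonneg fun i _ => hC₁ i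
    have h2 : 0 ≤ ∑ i, C₂ i ^ k i * K ^ (k i * (m i - 1)) := Finset.sum_nonneg fun i _ => by
      have := hC₂ i
      positivity
    linarith
  obtain ⟨B, hB0, hB⟩ := wr_est (N := N) (e := e) hn htinj (ha t htinj) (C := C₃)
    (c₁ := P p / 2) hC₃0 (by positivity)
  refine ⟨B, hB0, ?_⟩
  have hcc : ContinuousAt c p := c.continuousAt hp
  have hPnear : ∀ᶠ x in 𝓝 p, P p / 2 < P x := hPc.eventually_const_lt (by linarith)
  filter_upwards [hcc.eventually hfirst', c.open_source.mem_nhds hp, lift_near hg, hPnear, hUK]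
    with x h1 h2 h3 h4 h5
  intro h z hh hz hU G hCL
  subst hz
  have hCL' := cl_curve hh h3
  rw [qq_indep a N e hE.sum hCL' hCL]
  set v : ℝ := ‖deriv (fun w => c (h w)) z‖ with hv
  -- the curve in the chart
  have hcd : DifferentiableAt ℂ (fun w => c (h w)) z := by
    have h6 : MDifferentiableAt 𝓘(ℂ, E) 𝓘(ℂ, E) c (h z) :=
      mdifferentiableAt_atlas (chart_mem_atlas _ _) h2
    exact (h6.comp z (hh z)).differentiableAt
  have hxO : c (h z) ∈ O := by
    refine ⟨c.map_source h2, ?_⟩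
    show IsLift E φ g (c.symm (c (h z)))
    rw [c.left_inv h2]
    exact h3
  refine hB (fun w => g (h w)) z (v ^ N) hCL'.1 (by positivity) ?_ ?_ h4.le
  · intro i l hl
    -- the functions on the disc
    have hdf : DifferentiableOn ℂ (fun s : ℂ => linForm (a i) (g (h (z + s)))) (ball 0 r) := by
      intro s hs
      have hzs : z + s ∈ ball z r := by
        rw [mem_ball, dist_eq_norm, add_sub_cancel_left]
        exact mem_ball_zero_iff.1 hs
      have h6 : IsLift E φ g (h (z + s)) := (hU _ hzs).1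
      have h7 := (cl_curve hh h6).1.differentiableAt
      have h8 : DifferentiableAt ℂ (fun s : ℂ => z + s) s := by fun_prop
      have h9 : DifferentiableAt ℂ (fun s : ℂ => g (h (z + s))) s :=
        DifferentiableAt.comp (g := fun w => g (h w)) s h7 h8
      exact ((lin_diff (a i) _).comp s h9).differentiableWithinAt
    have h6 := hhigh i l hl (fun s : ℂ => linForm (a i) (g (h (z + s)))) hdf (by
      intro s hs
      have hzs : z + s ∈ ball z r := by
        rw [mem_ball, dist_eq_norm, add_sub_cancel_left]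
        exact mem_ball_zero_iff.1 hs
      exact ((hU _ hzs).2 i).le) (by
      intro w hw hw0 j hj
      have hzs : z + w ∈ ball z r := by
        rw [mem_ball, dist_eq_norm, add_sub_cancel_left]
        exact mem_ball_zero_iff.1 hw
      have h6 : IsLift E φ g (h (z + w)) := (hU _ hzs).1
      have hshift : MDifferentiable 𝓘(ℂ, ℂ) 𝓘(ℂ, E) (fun s : ℂ => h (z + w + s)) := by
        have h9 : MDifferentiable 𝓘(ℂ, ℂ) 𝓘(ℂ, ℂ) (fun s : ℂ => z + w + s) := by
          rw [mdifferentiable_iff_differentiable]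
          fun_prop
        exact hh.comp h9
      have h7 := hF i (fun s : ℂ => h (z + w + s)) g
        (Eventually.of_forall fun s => hshift s) (by
          show IsLift E φ g (h (z + w + 0))
          rw [add_zero]
          exact h6) (by
          show linForm (a i) (g (h (z + w + 0))) = 0
          rw [add_zero]
          exact hw0) j hj
      have h8 := congrFun (iteratedDeriv_comp_const_add (n := j)
        (f := fun s : ℂ => linForm (a i) (g (h (z + s)))) (s := w)) 0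
      simp only [add_zero] at h8
      rw [← h8]
      have h9 : (fun s : ℂ => linForm (a i) (g (h (z + (w + s))))) =
          fun s : ℂ => linForm (a i) (g (h (z + w + s))) := by
        funext s
        rw [add_assoc]
      rw [h9]
      exact h7)
    have h7 := congrFun (iteratedDeriv_comp_const_add (n := l)
      (f := fun w : ℂ => linForm (a i) (g (h w))) (s := z)) 0
    simp only [add_zero] at h7
    rw [h7] at h6
    simp only [add_zero] at h6
    refine h6.trans ?_
    gcongr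
    exact hC₃1 i
  · intro i
    have hDd : HasFDerivAt (fun ξ => linForm (a i) (g (c.symm ξ)))
        (fderiv ℂ (fun ξ => linForm (a i) (g (c.symm ξ))) (c (h z))) (c (h z)) :=
      ((hG i).differentiableAt (hOo.mem_nhds hxO)).hasFDerivAt
    have hder : deriv (fun w => linForm (a i) (g (h w))) z =
        fderiv ℂ (fun ξ => linForm (a i) (g (c.symm ξ))) (c (h z))
          (deriv (fun w => c (h w)) z) := by
      have h6 := hDd.comp_hasDerivAt z hcd.hasDerivAt
      have h7 : (fun w => linForm (a i) (g (h w))) =ᶠ[𝓝 z]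
          ((fun ξ => linForm (a i) (g (c.symm ξ))) ∘ fun w => c (h w)) := by
        filter_upwards [(hh z).continuousAt.eventually_mem (c.open_source.mem_nhds h2)] with w hw
        show _ = linForm (a i) (g (c.symm (c (h w))))
        rw [c.left_inv hw]
      rw [h7.deriv_eq]
      exact h6.deriv
    have h8 := h1 i (deriv (fun w => c (h w)) z)
    rw [← hder, c.left_inv h2] at h8
    have h9 := pow_step (x := ‖deriv (fun w => linForm (a i) (g (h w))) z‖)
      (y := ‖linForm (a i) (g (h z))‖) (C := C₂ i) (K := K) (m := m i) (q := k i) (s := m i - 1)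
      (e := e i) (v := v) (norm_nonneg _) (hC₂ i) (norm_nonneg _) (h5 i).le hK1 (norm_nonneg _) h8
      ((hE.e_le i).trans (Nat.mul_le_mul_left _ (by omega)))
    rw [← hE.N_eq i] at h9
    calc ‖deriv (fun w => linForm (a i) (g (h w))) z‖ ^ N
        ≤ C₂ i ^ k i * K ^ (k i * (m i - 1)) * v ^ N * ‖linForm (a i) (g (h z))‖ ^ e i := h9
      _ ≤ C₃ * v ^ N * ‖linForm (a i) (g (h z))‖ ^ e i := by
        gcongr
        exact hC₃2 i
      _ = _ := by ring

end top

end Pool.Agent.OM
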