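import Pool.Agent.Lib_helper58.OM.G
import Pool.Agent.Lib_helper58.ND.Main

/-! # Orbifold maps of surfaces to projective spaces (MP_45e720_ag): assembly -/

set_option autoImplicit false
set_option linter.unusedVariables false
set_option linter.unusedSectionVars false

open Filter Topology Metric Set
open scoped Manifold ContDiff

namespace Pool.Agent.OM

open Pool.Agent.BR Pool.Agent.MBS Pool.Agent.SL Pool.Agent.IS Pool.Agent.KZ
open Pool.Agent.OrbifoldMaps

section

variable {E X : Type} [NormedAddCommGroup E] [NormedSpace ℂ E] [FiniteDimensional ℂ E]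

/-- the dichotomy: a Brody curve is doubly periodic or contained in the inverse image of a
hyperplane -/
theorem dichotomy [t : TopologicalSpace X] [CompactSpace X] [T2Space X] [ChartedSpace E X]
    [IsManifold 𝓘(ℂ, E) ω X] (hX : BrodyRigid.PlaneAmple E X) {n q : ℕ}
    {φ : X → Projectivization ℂ (Fin (n + 1) → ℂ)} {a : Fin q → Fin (n + 1) → ℂ} {m : Fin q → ℕ}
    (hφ : IsOrbifoldMap E φ a m) {h : ℂ → X} (hh : BrodyRigid.IsBrodyCurve (E := E) h) :
    BrodyRigid.DoublyPeriodic h ∨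
      ∃ b : Fin (n + 1) → ℂ, b ≠ 0 ∧ ∀ z, linForm b (φ (h z)).rep = 0 := by
  obtain ⟨N, e, k, hE⟩ := exists_exponents (fun i => (hφ.mult i).1) hφ.cartan
  have hq : n + 1 ≤ q := by
    have h3 : ∑ i, max 0 (1 - n / (m i : ℚ)) ≤ ∑ i : Fin q, (1 : ℚ) := by
      refine Finset.sum_le_sum fun i _ => max_le zero_le_one ?_
      have h4 : (0 : ℚ) ≤ n / (m i : ℚ) := by positivity
      linarith
    rw [Finset.sum_const, Finset.card_univ, Fintype.card_fin, nsmul_eq_mul, mul_one] at h3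
    exact_mod_cast hφ.cartan.trans h3
  obtain ⟨m', hm', -⟩ := MBS.exists_metric (E := E) (X := X)
  subst hm'
  rcases dichotomy_metric hX hφ.hol hφ.pos hφ.gen hq (fun i => (hφ.mult i).1)
    (fun i => (hφ.mult i).2) hE hh with h1 | ⟨b, hb, h1⟩
  · exact Or.inl h1
  · exact Or.inr ⟨b, hb, fun z => curve_ident (plane_analytic hφ.hol b) hh.1 h1 z⟩

variable [TopologicalSpace X] [CompactSpace X] [T2Space X] [ConnectedSpace X] [ChartedSpace E X]
  [IsManifold 𝓘(ℂ, E) ω X]

/-- Brody curves in surfaces with an orbifold map -/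
theorem brody_orbifold (h2 : Module.finrank ℂ E = 2) (hX : BrodyRigid.PlaneAmple E X)
    (hO : HasOrbifoldMap E X) {h : ℂ → X} (hh : BrodyRigid.IsBrodyCurve (E := E) h)
    (hne : ∃ z z', h z ≠ h z') : StrongLang.InTorusCurve E h := by
  obtain ⟨n, q, φ, a, m, hφ⟩ := hO
  rcases dichotomy hX hφ hh with h1 | ⟨b, hb, h1⟩
  · exact ⟨h, hh.1, h1, hne, Subset.rfl⟩
  · refine analytic_curve h2 hX hh hne (plane_analytic hφ.hol b) ?_ (z₀ := 0)
      (Eventually.of_forall h1)
    obtain ⟨x, hx⟩ := hφ.nondeg b hb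
    intro h3
    have h4 : x ∈ {x | linForm b (φ x).rep = 0} := by rw [h3]; exact mem_univ _
    exact hx h4

theorem hyp_orbifold (h2 : Module.finrank ℂ E = 2) (hX : BrodyRigid.PlaneAmple E X)
    (hO : HasOrbifoldMap E X) (hT : BrodyRigid.NoEllipticMaps E X) : SS.BrodyHyperbolic E X := by
  obtain ⟨𝒢, g1, -, h3⟩ := SL.main_thm hX
  have h4 := (h3 (by
    intro h hh _
    by_contra hno
    push Not at hno
    obtain ⟨g, h11, h12, ⟨z, z', h13⟩, -⟩ := brody_orbifold h2 hX hO hh hno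
    exact h13 (hT g h11 h12 z z'))).2.2
  refine (h4.out 0 1).1 ?_
  rw [eq_empty_iff_forall_notMem]
  intro g hg
  have h6 : ∃ z z', g z ≠ g z' := by
    by_contra hno
    push Not at hno
    have h7 := g1 g hg
    refine h7.2.2 0 ?_
    have : g = fun _ => g 0 := funext fun z => hno z 0
    rw [this]
    simp [BrodyRigid.velocity, tangentMap]
    rfl
  obtain ⟨z, z', hz⟩ := h6
  exact hz (hT g (g1 g hg).1 (g1 g hg).2.1 z z')

theorem main_thm (hX : BrodyRigid.CanonicalAmple E X) :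
    (HasOrbifoldMap E X → ∀ h : ℂ → X, BrodyRigid.IsBrodyCurve (E := E) h →
      (∃ z z', h z ≠ h z') → StrongLang.InTorusCurve E h) ∧
    (VirtuallyOrbifold E X →
      List.TFAE [BrodyRigid.NoEllipticMaps E X, SS.NoTorusMaps E X, SS.BrodyHyperbolic E X,
        ∀ x : X, StrongLang.HyperbolicAt E x]) := by
  have h2 : Module.finrank ℂ E = 2 := hX.1
  have hP : BrodyRigid.PlaneAmple E X := BrodyRigid.planeAmple_of_canonicalAmple hX
  refine ⟨fun hO h hh hne => brody_orbifold h2 hP hO hh hne, fun hV => ?_⟩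
  obtain ⟨𝒢, g1, -, h3⟩ := SL.main_thm hP
  have key : SS.BrodyHyperbolic E X → (SS.NoTorusMaps E X ∧ ∀ x : X, StrongLang.HyperbolicAt E x) := by
    intro hb
    have h4 := (h3 (fun h hh _ => hb h hh.1)).2.2
    exact ⟨(h4.out 1 2).1 hb, (h4.out 1 3).1 hb⟩
  tfae_have 3 → 4 := fun h => (key h).2
  tfae_have 4 → 3 := IS.brody_of_hyp'
  tfae_have 3 → 2 := fun h => (key h).1
  tfae_have 2 → 1 := IS.brody_torus
  tfae_have 1 → 3 := by
    intro hT
    obtain ⟨X', i1, i2, i3, i4, i5, i6, π, h5, h6, h7⟩ := hV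
    exact IS.etale_entire h5 h6 (hyp_orbifold h2 (IS.etale_planeAmple h5 h6 hP) h7
      (IS.etale_elliptic h5 h6 hT))
  tfae_finish

end

end Pool.Agent.OM
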