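import Pool.Agent.Lib_helper80.SL.Notions2

/-! # Orbifold maps of surfaces to projective spaces (MP_45e720_ag): definitions for the statement

The complex manifolds are as in `Pool.Agent.Lib_helper82.BR.Statement`: charted spaces over a
finite-dimensional complex normed space `E` with analytic transition maps. The projective space of
dimension `n` is `Projectivization ℂ (Fin (n + 1) → ℂ)`. -/

set_option autoImplicit false

open Filter Topology Metric Set
open scoped Manifold ContDiff

namespace Pool.Agent.OrbifoldMaps

/-- the linear form with the coefficients `a` -/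
def linForm {n : ℕ} (a v : Fin (n + 1) → ℂ) : ℂ := ∑ k, a k * v k

section

variable (E : Type) {X : Type} [NormedAddCommGroup E] [NormedSpace ℂ E] [TopologicalSpace X]
  [ChartedSpace E X]

/-- Near `x` the map `φ` to the projective space is `[g 0 : … : g n]`, where `g` is holomorphic and
has no zeros. -/
def IsLift {n : ℕ} (φ : X → Projectivization ℂ (Fin (n + 1) → ℂ)) (g : X → Fin (n + 1) → ℂ)
    (x : X) : Prop :=
  (∀ᶠ y in 𝓝 x, MDifferentiableAt 𝓘(ℂ, E) 𝓘(ℂ, Fin (n + 1) → ℂ) g y) ∧
    ∀ᶠ y in 𝓝 x, ∃ h : g y ≠ 0, φ y = Projectivization.mk ℂ (g y) h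

/-- The map `φ` to the projective space is holomorphic. -/
def IsHolomorphic {n : ℕ} (φ : X → Projectivization ℂ (Fin (n + 1) → ℂ)) : Prop :=
  ∀ x : X, ∃ g : X → Fin (n + 1) → ℂ, IsLift E φ g x

/-- All components of the inverse image under `φ` of the hyperplane `a = 0` have a multiplicity of at
least `m`: every holomorphic curve `c` (defined near the origin) which starts in this inverse image
meets it with a multiplicity of at least `m`, that is, its local equation `a (g) = 0` vanishes along
`c` to an order of at least `m` at the origin. -/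
def HyperplaneMultiplicity {n : ℕ} (φ : X → Projectivization ℂ (Fin (n + 1) → ℂ))
    (a : Fin (n + 1) → ℂ) (m : ℕ) : Prop :=
  ∀ (c : ℂ → X) (g : X → Fin (n + 1) → ℂ),
    (∀ᶠ t in 𝓝 (0 : ℂ), MDifferentiableAt 𝓘(ℂ, ℂ) 𝓘(ℂ, E) c t) →
    IsLift E φ g (c 0) → linForm a (g (c 0)) = 0 →
    ∀ j < m, iteratedDeriv j (fun t => linForm a (g (c t))) 0 = 0

/-- `φ` is a holomorphic map from `X` to the projective space of dimension `n > 0`, the image of which
is contained in no hyperplane, the hyperplanes `a i = 0` are in general position (any `n + 1` of the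
linear forms `a i` are linearly independent), all components of the inverse image under `φ` of the
hyperplane `a i = 0` have a multiplicity of at least `m i > 0`, and Cartan's bound
`∑ max 0 (1 - n / m i) ≥ n + 1` holds. (For `n = 1`: `φ` is a nonconstant map to the projective line,
the hyperplanes are distinct points of the projective line, all components of the fibre of `φ` over
the point number `i` have a multiplicity of at least `m i`, and `∑ (1 - 1 / m i) ≥ 2`. For instance:
four fibres have no reduced components.) -/
structure IsOrbifoldMap {n q : ℕ} (φ : X → Projectivization ℂ (Fin (n + 1) → ℂ))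
    (a : Fin q → Fin (n + 1) → ℂ) (m : Fin q → ℕ) : Prop where
  pos : 0 < n
  hol : IsHolomorphic E φ
  nondeg : ∀ b : Fin (n + 1) → ℂ, b ≠ 0 → ∃ x, linForm b (φ x).rep ≠ 0
  gen : ∀ s : Fin (n + 1) → Fin q, Function.Injective s → LinearIndependent ℂ fun k => a (s k)
  mult : ∀ i, 0 < m i ∧ HyperplaneMultiplicity E φ (a i) (m i)
  cartan : (n + 1 : ℚ) ≤ ∑ i, max 0 (1 - n / (m i : ℚ))

variable (X)

/-- There is a map from `X` to some projective space as in `IsOrbifoldMap`. -/
def HasOrbifoldMap : Prop :=
  ∃ (n q : ℕ) (φ : X → Projectivization ℂ (Fin (n + 1) → ℂ)) (a : Fin q → Fin (n + 1) → ℂ)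
    (m : Fin q → ℕ), IsOrbifoldMap E φ a m

/-- Some finite unramified covering `X'` of `X` (for instance `X` itself) has a map to a projective
space as in `HasOrbifoldMap`. (A holomorphic map `π : X' → X` with injective derivatives between
compact connected manifolds of the same dimension is a finite unramified covering.) -/
def VirtuallyOrbifold [IsManifold 𝓘(ℂ, E) ω X] : Prop :=
  ∃ (X' : Type) (_ : TopologicalSpace X') (_ : CompactSpace X') (_ : T2Space X')
    (_ : ConnectedSpace X') (_ : ChartedSpace E X') (_ : IsManifold 𝓘(ℂ, E) ω X') (π : X' → X),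
    MDifferentiable 𝓘(ℂ, E) 𝓘(ℂ, E) π ∧
      (∀ (x' : X') (v : E), (SS.dirDeriv π x' v : E) = 0 → v = 0) ∧ HasOrbifoldMap E X'

end

end Pool.Agent.OrbifoldMaps
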